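import Mathlib
import Pool.Agent.Lib.MP_279640_co.Upper

set_option autoImplicit false
set_option linter.unusedSectionVars false
open scoped Classical
open Finset

namespace Pool.Agent.Lib.MP_279640_coF

open Pool.Agent.Lib.MP_279640_co

variable {V : Type} [Fintype V] {ν : ℕ}

/-- A matching with `ν` edges. -/
def MM (G : SimpleGraph V) (g h : Fin ν → V) : Prop :=
  Function.Injective (Sum.elim g h) ∧ ∀ i, G.Adj (g i) (h i)

/-- Exposed vertices. -/
def Ex (g h : Fin ν → V) (v : V) : Prop := (∀ i, g i ≠ v) ∧ ∀ i, h i ≠ v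

/-- Vertices with two exposed neighbours. -/
def P2 (G : SimpleGraph V) (g h : Fin ν → V) (v : V) : Prop :=
  ∃ a b, a ≠ b ∧ Ex g h a ∧ Ex g h b ∧ G.Adj v a ∧ G.Adj v b

lemma MM.gg {G : SimpleGraph V} {g h : Fin ν → V} (hm : MM G g h) {i j : Fin ν} (hij : g i = g j) :
    i = j := Sum.inl_injective (hm.1 (a₁ := Sum.inl i) (a₂ := Sum.inl j) hij)

lemma MM.hh {G : SimpleGraph V} {g h : Fin ν → V} (hm : MM G g h) {i j : Fin ν} (hij : h i = h j) :
    i = j := Sum.inr_injective (hm.1 (a₁ := Sum.inr i) (a₂ := Sum.inr j) hij)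

lemma MM.gh {G : SimpleGraph V} {g h : Fin ν → V} (hm : MM G g h) (i j : Fin ν) : g i ≠ h j := by
  intro hij
  have := hm.1 (a₁ := Sum.inl i) (a₂ := Sum.inr j) hij
  simp at this

lemma ind {G : SimpleGraph V} {g h : Fin ν → V} (hm : MM G g h) (hno : ¬ HasMatch G (ν + 1))
    {a b : V} (ha : Ex g h a) (hb : Ex g h b) (hadj : G.Adj a b) : False := by
  apply hno
  have h1 := hasMatch_of (G := G) (ι := Option (Fin ν)) (fun o => o.elim a g)
    (fun o => o.elim b h) (by
      rintro ((_ | i) | (_ | i)) ((_ | j) | (_ | j)) hh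
      · rfl
      · exact absurd hh.symm (ha.1 j)
      · exact absurd hh hadj.ne
      · exact absurd hh.symm (ha.2 j)
      · exact absurd hh (ha.1 i)
      · rw [hm.gg hh]
      · exact absurd hh (hb.1 i)
      · exact absurd hh (hm.gh i j)
      · exact absurd hh.symm hadj.ne
      · exact absurd hh.symm (hb.1 j)
      · rfl
      · exact absurd hh.symm (hb.2 j)
      · exact absurd hh (ha.2 i)
      · exact absurd hh.symm (hm.gh j i)
      · exact absurd hh (hb.2 i)
      · rw [hm.hh hh])
    (by
      rintro (_ | i)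
      · exact hadj
      · exact hm.2 i)
  simpa using h1

lemma rot {G : SimpleGraph V} {g h : Fin ν → V} (hm : MM G g h) {i : Fin ν} {a : V}
    (ha : Ex g h a) (hadj : G.Adj (g i) a) : MM G g (Function.update h i a) := by
  constructor
  · rintro (x | x) (y | y) hxy
    · exact congrArg Sum.inl (hm.gg hxy)
    · exfalso
      by_cases hy : y = i
      · rw [hy] at hxy
        simp only [Sum.elim_inl, Sum.elim_inr, Function.update_self] at hxy
        exact ha.1 x hxy
      · simp only [Sum.elim_inl, Sum.elim_inr, Function.update_of_ne hy] at hxy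
        exact hm.gh x y hxy
    · exfalso
      by_cases hx : x = i
      · rw [hx] at hxy
        simp only [Sum.elim_inl, Sum.elim_inr, Function.update_self] at hxy
        exact ha.1 y hxy.symm
      · simp only [Sum.elim_inl, Sum.elim_inr, Function.update_of_ne hx] at hxy
        exact hm.gh y x hxy.symm
    · by_cases hx : x = i
      · by_cases hy : y = i
        · rw [hx, hy]
        · exfalso
          rw [hx] at hxy
          simp only [Sum.elim_inr, Function.update_self, Function.update_of_ne hy] at hxy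
          exact ha.2 y hxy.symm
      · by_cases hy : y = i
        · exfalso
          rw [hy] at hxy
          simp only [Sum.elim_inr, Function.update_self, Function.update_of_ne hx] at hxy
          exact ha.2 x hxy
        · simp only [Sum.elim_inr, Function.update_of_ne hx, Function.update_of_ne hy] at hxy
          rw [hm.hh hxy]
  · intro j
    by_cases hj : j = i
    · rw [hj, Function.update_self]; exact hadj
    · rw [Function.update_of_ne hj]; exact hm.2 j

lemma ex_rot {G : SimpleGraph V} {g h : Fin ν → V} (hm : MM G g h) {i : Fin ν} {a : V}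
    (ha : Ex g h a) : Ex g (Function.update h i a) (h i) := by
  refine ⟨fun j => hm.gh j i, fun j => ?_⟩
  by_cases hj : j = i
  · rw [hj, Function.update_self]
    exact fun h' => ha.2 i h'.symm
  · rw [Function.update_of_ne hj]
    exact fun h' => hj (hm.hh h')

lemma ex_rot' {g h : Fin ν → V} {i : Fin ν} {a b : V}
    (hb : Ex g h b) (hab : a ≠ b) : Ex g (Function.update h i a) b := by
  refine ⟨hb.1, fun j => ?_⟩
  by_cases hj : j = i
  · rw [hj, Function.update_self]; exact hab
  · rw [Function.update_of_ne hj]; exact hb.2 j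

lemma F2 {G : SimpleGraph V} {g h : Fin ν → V} (hm : MM G g h) (hno : ¬ HasMatch G (ν + 1))
    {k : Fin ν} {a b : V} (ha : Ex g h a) (hb : Ex g h b) (hab : a ≠ b)
    (h1 : G.Adj (g k) a) (h2 : G.Adj (h k) b) : False :=
  ind (rot hm ha h1) hno (ex_rot hm ha) (ex_rot' hb hab) h2

lemma F3 {G : SimpleGraph V} {g h : Fin ν → V} (hm : MM G g h) (hno : ¬ HasMatch G (ν + 1))
    {i j : Fin ν} (hij : i ≠ j) {a b : V} (ha : Ex g h a) (hb : Ex g h b) (hab : a ≠ b)
    (h1 : G.Adj (g i) a) (h2 : G.Adj (g j) b) (h3 : G.Adj (h i) (h j)) : False := by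
  have m1 := rot hm ha h1
  have e1 := ex_rot' (i := i) hb hab
  have m2 := rot m1 e1 h2
  have e2 := ex_rot (i := j) m1 e1
  rw [Function.update_of_ne hij.symm] at e2
  have e3 := ex_rot' (i := j) (a := b) (ex_rot (i := i) hm ha) (fun h' => hb.2 i h'.symm)
  exact ind m2 hno e3 e2 h3

lemma F4 {G : SimpleGraph V} {g h : Fin ν → V} (hm : MM G g h) (hno : ¬ HasMatch G (ν + 1))
    {i j k : Fin ν} (hij : i ≠ j) (hki : k ≠ i) (hkj : k ≠ j) {a b : V} (ha : Ex g h a)
    (hb : Ex g h b) (hab : a ≠ b)
    (h1 : G.Adj (g i) a) (h2 : G.Adj (g j) b) (h3 : G.Adj (h i) (g k)) (h4 : G.Adj (h j) (h k)) :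
    False := by
  have m1 := rot hm ha h1
  have e1 := ex_rot' (i := i) hb hab
  have m2 := rot m1 e1 h2
  have e2 := ex_rot (i := j) m1 e1
  rw [Function.update_of_ne hij.symm] at e2
  have e3 := ex_rot' (i := j) (a := b) (ex_rot (i := i) hm ha) (fun h' => hb.2 i h'.symm)
  refine F2 m2 hno (k := k) e3 e2 (fun h' => hij (hm.hh h')) h3.symm ?_
  rw [Function.update_of_ne hkj, Function.update_of_ne hki]
  exact h4.symm

/-- Orientation: only the first ends may have two exposed neighbours. -/
lemma orient {G : SimpleGraph V} {g h : Fin ν → V} (hm : MM G g h) (hno : ¬ HasMatch G (ν + 1)) :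
    ∃ g' h' : Fin ν → V, MM G g' h' ∧ ∀ i, ¬ P2 G g' h' (h' i) := by
  let g' : Fin ν → V := fun i => if P2 G g h (h i) then h i else g i
  let h' : Fin ν → V := fun i => if P2 G g h (h i) then g i else h i
  have hex : ∀ v, Ex g' h' v → Ex g h v := by
    intro v hv
    refine ⟨fun i => ?_, fun i => ?_⟩
    · by_cases hi : P2 G g h (h i)
      · have := hv.2 i
        simp only [h', if_pos hi] at this
        exact this
      · have := hv.1 i
        simp only [g', if_neg hi] at this
        exact this
    · by_cases hi : P2 G g h (h i)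
      · have := hv.1 i
        simp only [g', if_pos hi] at this
        exact this
      · have := hv.2 i
        simp only [h', if_neg hi] at this
        exact this
  refine ⟨g', h', ⟨?_, ?_⟩, ?_⟩
  · rintro (x | x) (y | y) hxy
    · simp only [Sum.elim_inl, g'] at hxy
      by_cases hx : P2 G g h (h x) <;> by_cases hy : P2 G g h (h y)
      · rw [if_pos hx, if_pos hy] at hxy; rw [hm.hh hxy]
      · rw [if_pos hx, if_neg hy] at hxy; exact absurd hxy.symm (hm.gh y x)
      · rw [if_neg hx, if_pos hy] at hxy; exact absurd hxy (hm.gh x y)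
      · rw [if_neg hx, if_neg hy] at hxy; rw [hm.gg hxy]
    · simp only [Sum.elim_inl, Sum.elim_inr, g', h'] at hxy
      by_cases hx : P2 G g h (h x) <;> by_cases hy : P2 G g h (h y)
      · rw [if_pos hx, if_pos hy] at hxy; exact absurd hxy.symm (hm.gh y x)
      · rw [if_pos hx, if_neg hy] at hxy
        exact absurd hx (by rw [hm.hh hxy]; exact hy)
      · rw [if_neg hx, if_pos hy] at hxy
        exact absurd hy (by rw [← hm.gg hxy]; exact hx)
      · rw [if_neg hx, if_neg hy] at hxy; exact absurd hxy (hm.gh x y)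
    · simp only [Sum.elim_inl, Sum.elim_inr, g', h'] at hxy
      by_cases hx : P2 G g h (h x) <;> by_cases hy : P2 G g h (h y)
      · rw [if_pos hx, if_pos hy] at hxy; exact absurd hxy (hm.gh x y)
      · rw [if_pos hx, if_neg hy] at hxy
        exact absurd hx (by rw [hm.gg hxy]; exact hy)
      · rw [if_neg hx, if_pos hy] at hxy
        exact absurd hy (by rw [← hm.hh hxy]; exact hx)
      · rw [if_neg hx, if_neg hy] at hxy; exact absurd hxy.symm (hm.gh y x)
    · simp only [Sum.elim_inr, h'] at hxy
      by_cases hx : P2 G g h (h x) <;> by_cases hy : P2 G g h (h y)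
      · rw [if_pos hx, if_pos hy] at hxy; rw [hm.gg hxy]
      · rw [if_pos hx, if_neg hy] at hxy; exact absurd hxy (hm.gh x y)
      · rw [if_neg hx, if_pos hy] at hxy; exact absurd hxy.symm (hm.gh y x)
      · rw [if_neg hx, if_neg hy] at hxy; rw [hm.hh hxy]
  · intro i
    simp only [g', h']
    by_cases hi : P2 G g h (h i)
    · rw [if_pos hi, if_pos hi]; exact (hm.2 i).symm
    · rw [if_neg hi, if_neg hi]; exact hm.2 i
  · rintro i ⟨a, b, hab, ha, hb, h1, h2⟩
    have ha' := hex a ha
    have hb' := hex b hb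
    by_cases hi : P2 G g h (h i)
    · simp only [h', if_pos hi] at h1 h2
      obtain ⟨a2, b2, hab2, ha2, hb2, h3, h4⟩ := hi
      by_cases hc : a = a2
      · exact F2 hm hno ha' hb2 (by rw [hc]; exact hab2) h1 h4
      · exact F2 hm hno ha' ha2 hc h1 h3
    · simp only [h', if_neg hi] at h1 h2
      exact hi ⟨a, b, hab, ha', hb', h1, h2⟩

/-- A matching bounds the discrepancy from below. -/
lemma two_match_le {G : SimpleGraph V} {d : ℝ} (hS : Sur G d) {g h : Fin ν → V}
    (hm : MM G g h) : 2 * (ν : ℝ) ≤ d := by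
  obtain ⟨ε, hε, hB⟩ := greedy_pairs G g h hm.2 0 (Finset.univ : Finset (Fin ν))
  have h1 : (0 : V → ℝ) + ∑ i ∈ (Finset.univ : Finset (Fin ν)), ε i • (e (g i) - e (h i))
      = push (Sum.elim g h) (Sum.elim ε (fun i => -ε i)) := by
    unfold push
    rw [Fintype.sum_sum_type, zero_add, ← Finset.sum_add_distrib]
    refine Finset.sum_congr rfl fun i _ => ?_
    simp only [Sum.elim_inl, Sum.elim_inr]
    rw [smul_sub, neg_smul, sub_eq_add_neg]
  rw [h1] at hB
  have h2 := hS _ (push_PA hm.1 (c := Sum.elim ε (fun i => -ε i)) (by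
    rintro (i | i)
    · rcases hε i with h | h
      · left; exact h
      · right; right; exact h
    · rcases hε i with h | h
      · right; right; simp only [Sum.elim_inr, h]; norm_num
      · left; simp only [Sum.elim_inr, h])) (by
    rw [push_sum, Fintype.sum_sum_type]
    simp)
  have h3 : B G (0 : V → ℝ) 0 = 0 := by simp
  rw [h3, Finset.card_univ, Fintype.card_fin] at hB
  linarith

end Pool.Agent.Lib.MP_279640_coF
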