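import Mathlib
import Pool.Agent.Lib.MP_279640_co.Bridge

set_option autoImplicit false
set_option linter.unusedSectionVars false
open scoped Classical
open Finset

namespace Pool.Agent.Lib.MP_279640_coF

open Pool.Agent.Lib.MP_279640_co

/-- Positive integers, more than half of whose sum is their number, realise every value up to
their sum as a subset sum. -/
lemma subset_sum {ι : Type*} (w : ι → ℕ) : ∀ (k : ℕ) (s : Finset ι), s.card = k →
    (∀ i ∈ s, 1 ≤ w i) → (∑ i ∈ s, w i) + 1 ≤ 2 * s.card → ∀ h ≤ ∑ i ∈ s, w i,
    ∃ T ⊆ s, ∑ i ∈ T, w i = h := by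
  intro k
  induction k with
  | zero =>
    intro s hs _ h1 h hh
    rw [hs] at h1
    omega
  | succ k ih =>
    intro s hs hpos h1 h hh
    by_cases hall : ∀ i ∈ s, w i = 1
    · have h2 : ∑ i ∈ s, w i = s.card := by
        rw [Finset.sum_congr rfl hall]; simp
      obtain ⟨T, hT, hTc⟩ := Finset.exists_subset_card_eq (s := s) (n := h) (by omega)
      refine ⟨T, hT, ?_⟩
      rw [Finset.sum_congr rfl (fun i hi => hall i (hT hi))]
      simpa using hTc
    · push Not at hall
      obtain ⟨i, hi, hwi⟩ := hall
      have hwi2 : 2 ≤ w i := by have := hpos i hi; omega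
      have hsum : w i + ∑ j ∈ s.erase i, w j = ∑ j ∈ s, w j := Finset.add_sum_erase s w hi
      have hcard : (s.erase i).card = k := by rw [Finset.card_erase_of_mem hi, hs]; rfl
      have hlow : (s.erase i).card ≤ ∑ j ∈ s.erase i, w j := by
        rw [Finset.card_eq_sum_ones]
        exact Finset.sum_le_sum fun j hj => hpos j (Finset.mem_of_mem_erase hj)
      have ih' := ih (s.erase i) hcard (fun j hj => hpos j (Finset.mem_of_mem_erase hj))
        (by rw [hcard]; rw [hs] at h1; omega)
      by_cases hh2 : h ≤ ∑ j ∈ s.erase i, w j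
      · obtain ⟨T, hT, hTs⟩ := ih' h hh2
        exact ⟨T, hT.trans (Finset.erase_subset _ _), hTs⟩
      · have hge : w i ≤ h := by
          rw [hcard] at hlow
          rw [hs] at h1
          omega
        obtain ⟨T, hT, hTs⟩ := ih' (h - w i) (by omega)
        have hiT : i ∉ T := fun hi' => absurd (hT hi') (Finset.notMem_erase i s)
        refine ⟨insert i T, ?_, ?_⟩
        · intro j hj
          rcases Finset.mem_insert.mp hj with rfl | hj
          · exact hi
          · exact Finset.mem_of_mem_erase (hT hj)
        · rw [Finset.sum_insert hiT, hTs]; omega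

/-- A labelling constant along `t` given pairs with at least `|V| - t` labels. -/
lemma exists_label {V : Type*} [Fintype V] (E : Finset (Sym2 V)) :
    ∃ f : V → V, (∀ x y, s(x, y) ∈ E → f x = f y) ∧
      Fintype.card V ≤ (Finset.univ.image f).card + E.card := by
  induction E using Finset.induction_on with
  | empty =>
    refine ⟨id, by simp, ?_⟩
    simp
  | insert e E he ih =>
    obtain ⟨f, hf, hc⟩ := ih
    induction e using Sym2.ind with
    | _ a b =>
      refine ⟨fun v => if f v = f a then f b else f v, ?_, ?_⟩
      · intro x y hxy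
        rcases Finset.mem_insert.mp hxy with h | h
        · rw [Sym2.eq_iff] at h
          rcases h with ⟨rfl, rfl⟩ | ⟨rfl, rfl⟩
          · by_cases h2 : f y = f x <;> simp [h2]
          · by_cases h2 : f x = f y <;> simp [h2]
        · have := hf x y h
          simp [this]
      · have h1 : (Finset.univ.image f).erase (f a) ⊆
            Finset.univ.image (fun v => if f v = f a then f b else f v) := by
          intro z hz
          obtain ⟨hz1, hz2⟩ := Finset.mem_erase.mp hz
          obtain ⟨v, _, rfl⟩ := Finset.mem_image.mp hz2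
          refine Finset.mem_image.mpr ⟨v, Finset.mem_univ _, ?_⟩
          simp [hz1]
        have h2 := Finset.card_le_card h1
        rw [Finset.card_erase_of_mem (Finset.mem_image_of_mem f (Finset.mem_univ a))] at h2
        rw [Finset.card_insert_of_notMem he]
        omega

/-- Sets of every size that are not crossed by any of `t` given pairs, if there are at least
`2 t + 1` points. -/
lemma exists_closed {V : Type*} [Fintype V] (E : Finset (Sym2 V))
    (hE : 2 * E.card + 1 ≤ Fintype.card V) (h : ℕ) (hh : h ≤ Fintype.card V) :
    ∃ S : Finset V, S.card = h ∧ ∀ x y, s(x, y) ∈ E → (x ∈ S ↔ y ∈ S) := by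
  obtain ⟨f, hf, hc⟩ := exists_label E
  have hsum : ∑ y ∈ Finset.univ.image f, (Finset.univ.filter (fun v => f v = y)).card
      = Fintype.card V := by
    rw [← Finset.card_eq_sum_card_fiberwise (fun v _ => Finset.mem_coe.mpr (Finset.mem_image_of_mem f (Finset.mem_univ v)))]
    rfl
  obtain ⟨T, hT, hTs⟩ := subset_sum (fun y => (Finset.univ.filter (fun v => f v = y)).card) _
    (Finset.univ.image f) rfl (by
      intro y hy
      obtain ⟨v, _, rfl⟩ := Finset.mem_image.mp hy
      exact Finset.card_pos.mpr ⟨v, by simp⟩) (by rw [hsum]; omega) h (by rw [hsum]; exact hh)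
  refine ⟨Finset.univ.filter (fun v => f v ∈ T), ?_, ?_⟩
  · rw [← hTs, Finset.card_eq_sum_card_fiberwise (f := f) (t := T) (by
      intro v hv
      simpa using hv)]
    refine Finset.sum_congr rfl fun y hy => ?_
    congr 1
    ext v
    simp only [Finset.mem_filter, Finset.mem_univ, true_and]
    constructor
    · rintro ⟨_, h2⟩; exact h2
    · intro h2; exact ⟨by rw [h2]; exact hy, h2⟩
  · intro x y hxy
    simp [hf x y hxy]

end Pool.Agent.Lib.MP_279640_coF
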