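import Mathlib
import Pool.Agent.Lib.MP_279640_coF.Closed

set_option autoImplicit false
set_option linter.unusedSectionVars false
open scoped Classical
open Finset

namespace Pool.Agent.Lib.MP_279640_coF

open Pool.Agent.Lib.MP_279640_co

variable {n : ℕ}

/-- The crossing pairs as a Finset. -/
lemma cutSize_card (G : SimpleGraph (Fin n)) (S : Finset (Fin n)) :
    cutSize G S = ((S ×ˢ Sᶜ).filter (fun p => G.Adj p.1 p.2)).card := by
  unfold cutSize
  rw [← Set.ncard_coe_finset]
  congr 1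
  ext p
  simp only [Set.mem_ofPred_eq, Finset.coe_filter, Finset.mem_product, Finset.mem_compl]
  tauto

lemma cut_add_compl (G : SimpleGraph (Fin n)) (S : Finset (Fin n)) :
    cutSize G S + cutSize Gᶜ S = S.card * Sᶜ.card := by
  rw [cutSize_card, cutSize_card, ← Finset.card_product]
  rw [← Finset.card_filter_add_card_filter_not (s := S ×ˢ Sᶜ) (fun p => G.Adj p.1 p.2)]
  congr 2
  ext p
  simp only [Finset.mem_filter, Finset.mem_product, Finset.mem_compl, SimpleGraph.compl_adj]
  constructor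
  · rintro ⟨h1, _, h2⟩; exact ⟨h1, h2⟩
  · rintro ⟨h1, h2⟩
    refine ⟨h1, ?_, h2⟩
    intro h
    rw [h] at h1
    exact h1.2 h1.1

lemma compl_edges (G : SimpleGraph (Fin n)) :
    G.edgeSet.ncard + Gᶜ.edgeSet.ncard = n.choose 2 := by
  have h1 : G.edgeSet.ncard = G.edgeFinset.card := by
    rw [Set.ncard_eq_toFinset_card']; rfl
  have h2 : Gᶜ.edgeSet.ncard = Gᶜ.edgeFinset.card := by
    rw [Set.ncard_eq_toFinset_card']; rfl
  rw [h1, h2]
  have h3 : Disjoint G.edgeFinset Gᶜ.edgeFinset := by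
    rw [Finset.disjoint_left]
    intro e
    induction e using Sym2.ind with
    | _ a b =>
      intro h4 h5
      rw [SimpleGraph.mem_edgeFinset, SimpleGraph.mem_edgeSet] at h4 h5
      exact h5.2 h4
  rw [← Finset.card_union_of_disjoint h3]
  have h6 : G.edgeFinset ∪ Gᶜ.edgeFinset = (⊤ : SimpleGraph (Fin n)).edgeFinset := by
    ext e
    induction e using Sym2.ind with
    | _ a b =>
      simp only [Finset.mem_union, SimpleGraph.mem_edgeFinset, SimpleGraph.mem_edgeSet,
        SimpleGraph.compl_adj, SimpleGraph.top_adj]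
      constructor
      · rintro (h | h)
        · exact h.ne
        · exact h.1
      · intro h
        by_cases h' : G.Adj a b
        · exact Or.inl h'
        · exact Or.inr ⟨h, h'⟩
  rw [h6, SimpleGraph.card_edgeFinset_top_eq_card_choose_two, Fintype.card_fin]

/-- Crossing pairs inject into the edges that cross. -/
lemma cut_le_edges (H : SimpleGraph (Fin n)) (S : Finset (Fin n)) (E : Finset (Sym2 (Fin n)))
    (hE' : ∀ e ∈ E, e ∈ H.edgeSet) (hS : ∀ x y, s(x, y) ∈ E → (x ∈ S ↔ y ∈ S)) :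
    cutSize H S + E.card ≤ H.edgeSet.ncard := by
  have hE : E ⊆ H.edgeFinset := fun e he => SimpleGraph.mem_edgeFinset.mpr (hE' e he)
  have h1 : H.edgeSet.ncard = H.edgeFinset.card := by
    rw [Set.ncard_eq_toFinset_card']; rfl
  rw [h1, cutSize_card, ← Finset.card_sdiff_add_card_eq_card hE]
  apply Nat.add_le_add_right
  apply Finset.card_le_card_of_injOn (fun p : Fin n × Fin n => s(p.1, p.2))
  · intro p hp
    simp only [Finset.coe_filter, Finset.mem_product, Finset.mem_compl, Set.mem_ofPred_eq] at hp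
    simp only [Finset.coe_sdiff, Set.mem_sdiff, Finset.mem_coe, SimpleGraph.mem_edgeFinset,
      SimpleGraph.mem_edgeSet]
    refine ⟨hp.2, fun h => ?_⟩
    exact hp.1.2 ((hS _ _ h).mp hp.1.1)
  · intro p hp q hq hpq
    simp only [Finset.coe_filter, Finset.mem_product, Finset.mem_compl, Set.mem_ofPred_eq] at hp hq
    have hpq' : s(p.1, p.2) = s(q.1, q.2) := hpq
    rw [Sym2.eq_iff] at hpq'
    rcases hpq' with ⟨h2, h3⟩ | ⟨h2, h3⟩
    · exact Prod.ext h2 h3
    · exfalso
      rw [h2] at hp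
      exact hq.1.2 hp.1.1

lemma lower_one (N d : ℕ) (hd : d ≤ N) (G : SimpleGraph (Fin (N + 1)))
    (hG : G.edgeSet.ncard = N.choose 2 + d) :
    N ^ 2 / 4 + min d ((N + 1) / 2) ≤ maxBis G := by
  have h1 := compl_edges G
  have h2 : (N + 1).choose 2 = N.choose 2 + N := by
    rw [Nat.choose_succ_succ' N 1, Nat.choose_one_right]; ring
  have h3 : Gᶜ.edgeSet.ncard = N - d := by omega
  have h4 : Gᶜ.edgeFinset.card = N - d := by
    rw [← h3, Set.ncard_eq_toFinset_card']; rfl
  obtain ⟨E, hE, hEc⟩ := Finset.exists_subset_card_eq (s := Gᶜ.edgeFinset)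
    (n := min (N - d) (N / 2)) (by rw [h4]; exact min_le_left _ _)
  obtain ⟨S, hSc, hS⟩ := exists_closed E (by
    rw [hEc, Fintype.card_fin]
    have := min_le_right (N - d) (N / 2)
    omega) ((N + 1) / 2) (by rw [Fintype.card_fin]; omega)
  have h5 := cut_le_edges Gᶜ S E (fun e he => SimpleGraph.mem_edgeFinset.mp (hE he)) hS
  have h6 := cut_add_compl G S
  have hSc' : Sᶜ.card = N + 1 - (N + 1) / 2 := by
    rw [Finset.card_compl, Fintype.card_fin, hSc]
  have h7 := le_maxBis G S (by rw [hSc, hSc']; omega) (by rw [hSc, hSc']; omega)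
  rw [hSc, hSc'] at h6
  rw [hEc, h3] at h5
  have h8 : (N + 1) / 2 * (N + 1 - (N + 1) / 2) = N ^ 2 / 4 + (N + 1) / 2 := by
    rcases Nat.even_or_odd' N with ⟨k, rfl | rfl⟩
    · have e1 : (2 * k + 1) / 2 = k := by omega
      have e2 : 2 * k + 1 - k = k + 1 := by omega
      have e3 : (2 * k) ^ 2 / 4 = k ^ 2 := by
        rw [show (2 * k) ^ 2 = 4 * k ^ 2 by ring]; omega
      rw [e1, e2, e3]; ring
    · have e1 : (2 * k + 1 + 1) / 2 = k + 1 := by omega
      have e2 : 2 * k + 1 + 1 - (k + 1) = k + 1 := by omega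
      have e3 : (2 * k + 1) ^ 2 / 4 = k ^ 2 + k := by
        rw [show (2 * k + 1) ^ 2 = 4 * (k ^ 2 + k) + 1 by ring]; omega
      rw [e1, e2, e3]; ring
  rw [h8] at h6
  omega

end Pool.Agent.Lib.MP_279640_coF
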