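import Mathlib
import Pool.Agent.Lib.MP_279640_coF.LowerOne
import Pool.Agent.Lib.MP_279640_co.Clique

set_option autoImplicit false
set_option linter.unusedSectionVars false
open scoped Classical
open Finset

namespace Pool.Agent.Lib.MP_279640_coF

open Pool.Agent.Lib.MP_279640_co

variable {n : ℕ}

/-- Number of `h`-sets containing `u` and not `v`. -/
noncomputable def cnt (n h : ℕ) (u v : Fin n) : ℕ :=
  ((powersetCard h (univ : Finset (Fin n))).filter (fun S => u ∈ S ∧ v ∉ S)).card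

lemma exists_perm (u v u' v' : Fin n) (h : u ≠ v) (h' : u' ≠ v') :
    ∃ σ : Equiv.Perm (Fin n), σ u = u' ∧ σ v = v' := by
  refine ⟨(Equiv.swap u u').trans (Equiv.swap (Equiv.swap u u' v) v'), ?_, ?_⟩
  · rw [Equiv.trans_apply, Equiv.swap_apply_left]
    apply Equiv.swap_apply_of_ne_of_ne
    · intro h2
      have h3 : Equiv.swap u u' u = Equiv.swap u u' v := by rw [Equiv.swap_apply_left]; exact h2
      exact h ((Equiv.swap u u').injective h3)
    · exact h'
  · rw [Equiv.trans_apply, Equiv.swap_apply_left]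

lemma cnt_le (h : ℕ) (u v u' v' : Fin n) (hu : u ≠ v) (hu' : u' ≠ v') :
    cnt n h u v ≤ cnt n h u' v' := by
  obtain ⟨σ, h1, h2⟩ := exists_perm u v u' v' hu hu'
  unfold cnt
  apply Finset.card_le_card_of_injOn (fun S => S.map σ.toEmbedding)
  · intro S hS
    rw [Finset.mem_coe, Finset.mem_filter, Finset.mem_powersetCard] at hS
    rw [Finset.mem_coe, Finset.mem_filter, Finset.mem_powersetCard]
    refine ⟨⟨Finset.subset_univ _, ?_⟩, ?_, ?_⟩
    · rw [Finset.card_map]; exact hS.1.2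
    · rw [← h1]
      exact Finset.mem_map.mpr ⟨u, hS.2.1, rfl⟩
    · rw [← h2]
      intro h3
      obtain ⟨w, hw, hw2⟩ := Finset.mem_map.mp h3
      have : w = v := σ.injective hw2
      exact hS.2.2 (this ▸ hw)
  · intro S _ T _ hST
    exact Finset.map_injective _ hST

lemma cnt_eq (h : ℕ) (u v u' v' : Fin n) (hu : u ≠ v) (hu' : u' ≠ v') :
    cnt n h u v = cnt n h u' v' :=
  le_antisymm (cnt_le h u v u' v' hu hu') (cnt_le h u' v' u v hu' hu)

lemma sum_cut (G : SimpleGraph (Fin n)) (h c : ℕ) (hc : ∀ u v : Fin n, u ≠ v → cnt n h u v = c) :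
    ∑ S ∈ powersetCard h (univ : Finset (Fin n)), (cutSize G S : ℝ)
      = 2 * (G.edgeSet.ncard : ℝ) * c := by
  have h1 : ∀ S : Finset (Fin n), (cutSize G S : ℝ)
      = ∑ u, ∑ v, if (u ∈ S ∧ v ∉ S) then A G u v else 0 := by
    intro S
    rw [cutSize_eq]
    have e1 : ∑ u ∈ S, ∑ v ∈ Sᶜ, A G u v
        = ∑ u, if u ∈ S then ∑ v ∈ Sᶜ, A G u v else 0 := by
      rw [Finset.sum_ite_mem, Finset.univ_inter]
    rw [e1]
    refine Finset.sum_congr rfl fun u _ => ?_
    by_cases hu : u ∈ S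
    · rw [if_pos hu]
      have e2 : ∑ v ∈ Sᶜ, A G u v = ∑ v, if v ∈ Sᶜ then A G u v else 0 := by
        rw [Finset.sum_ite_mem, Finset.univ_inter]
      rw [e2]
      refine Finset.sum_congr rfl fun v _ => ?_
      simp [hu]
    · rw [if_neg hu]
      symm
      apply Finset.sum_eq_zero
      intro v _
      simp [hu]
  rw [Finset.sum_congr rfl (fun S _ => h1 S), Finset.sum_comm, ← sum_A_eq, Finset.sum_mul]
  refine Finset.sum_congr rfl fun u _ => ?_
  rw [Finset.sum_comm, Finset.sum_mul]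
  refine Finset.sum_congr rfl fun v _ => ?_
  rw [← Finset.sum_filter, Finset.sum_const, nsmul_eq_mul]
  by_cases huv : u = v
  · subst huv
    have : A G u u = 0 := by unfold A; simp
    rw [this]; ring
  · have := hc u v huv
    unfold cnt at this
    rw [this]; ring

lemma cutSize_top (S : Finset (Fin n)) : cutSize (⊤ : SimpleGraph (Fin n)) S = S.card * Sᶜ.card := by
  rw [cutSize_card, ← Finset.card_product]
  congr 1
  ext p
  simp only [Finset.mem_filter, Finset.mem_product, Finset.mem_compl, SimpleGraph.top_adj,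
    and_iff_left_iff_imp]
  intro h1 h
  rw [h] at h1
  exact h1.2 h1.1

/-- The averaging bound. -/
lemma avg (hn : 2 ≤ n) (G : SimpleGraph (Fin n)) :
    2 * (G.edgeSet.ncard : ℝ) * (((n / 2 : ℕ) : ℝ) * ((n - n / 2 : ℕ) : ℝ))
      ≤ (maxBis G : ℝ) * ((n : ℝ) * ((n : ℝ) - 1)) := by
  set h := n / 2 with hh
  have huv : (⟨0, by omega⟩ : Fin n) ≠ ⟨1, by omega⟩ := by
    intro h; simp at h
  set c := cnt n h ⟨0, by omega⟩ ⟨1, by omega⟩ with hc
  have hc' : ∀ u v : Fin n, u ≠ v → cnt n h u v = c := fun u v h1 => cnt_eq h _ _ _ _ h1 huv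
  have h1 := sum_cut G h c hc'
  have h2 := sum_cut (⊤ : SimpleGraph (Fin n)) h c hc'
  have hN : (powersetCard h (univ : Finset (Fin n))).card = n.choose h := by
    rw [Finset.card_powersetCard, Finset.card_univ, Fintype.card_fin]
  have hcompl : ∀ S ∈ powersetCard h (univ : Finset (Fin n)), S.card = h ∧ Sᶜ.card = n - h := by
    intro S hS
    have := (Finset.mem_powersetCard.mp hS).2
    refine ⟨this, ?_⟩
    rw [Finset.card_compl, Fintype.card_fin, this]
  have h3 : ∑ S ∈ powersetCard h (univ : Finset (Fin n)),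
      (cutSize (⊤ : SimpleGraph (Fin n)) S : ℝ) = (n.choose h : ℝ) * ((h : ℝ) * ((n - h : ℕ) : ℝ)) := by
    rw [Finset.sum_congr rfl (fun S hS => by
      rw [cutSize_top, (hcompl S hS).1, (hcompl S hS).2] :
      ∀ S ∈ powersetCard h (univ : Finset (Fin n)),
        (cutSize (⊤ : SimpleGraph (Fin n)) S : ℝ) = ((h * (n - h) : ℕ) : ℝ))]
    rw [Finset.sum_const, hN, nsmul_eq_mul]
    push_cast
    ring
  have h4 : ∑ S ∈ powersetCard h (univ : Finset (Fin n)), (cutSize G S : ℝ)
      ≤ (n.choose h : ℝ) * (maxBis G : ℝ) := by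
    rw [← hN, ← nsmul_eq_mul]
    apply Finset.sum_le_card_nsmul
    intro S hS
    obtain ⟨e1, e2⟩ := hcompl S hS
    exact_mod_cast le_maxBis G S (by rw [e1, e2]; omega) (by rw [e1, e2]; omega)
  have h5 : 2 * ((⊤ : SimpleGraph (Fin n)).edgeSet.ncard : ℝ) = (n : ℝ) * ((n : ℝ) - 1) := by
    have e1 : (⊤ : SimpleGraph (Fin n)).edgeSet.ncard = n.choose 2 := by
      have : (⊤ : SimpleGraph (Fin n)).edgeSet.ncard = (⊤ : SimpleGraph (Fin n)).edgeFinset.card := by
        rw [Set.ncard_eq_toFinset_card']; rfl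
      rw [this, SimpleGraph.card_edgeFinset_top_eq_card_choose_two, Fintype.card_fin]
    rw [e1, Nat.cast_choose_two]; ring
  rw [h3, h5] at h2
  rw [h1] at h4
  have hCpos : (0 : ℝ) < (n.choose h : ℝ) := by
    exact_mod_cast Nat.choose_pos (by omega)
  have hn0 : 0 ≤ (n : ℝ) * ((n : ℝ) - 1) := by
    have : (2 : ℝ) ≤ n := by exact_mod_cast hn
    nlinarith
  have h6 : (n.choose h : ℝ) * (2 * (G.edgeSet.ncard : ℝ) * ((h : ℝ) * ((n - h : ℕ) : ℝ)))
      ≤ (n.choose h : ℝ) * ((maxBis G : ℝ) * ((n : ℝ) * ((n : ℝ) - 1))) := by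
    calc (n.choose h : ℝ) * (2 * (G.edgeSet.ncard : ℝ) * ((h : ℝ) * ((n - h : ℕ) : ℝ)))
        = (2 * (G.edgeSet.ncard : ℝ)) * ((n.choose h : ℝ) * ((h : ℝ) * ((n - h : ℕ) : ℝ))) := by ring
      _ = (2 * (G.edgeSet.ncard : ℝ) * c) * ((n : ℝ) * ((n : ℝ) - 1)) := by rw [h2]; ring
      _ ≤ ((n.choose h : ℝ) * (maxBis G : ℝ)) * ((n : ℝ) * ((n : ℝ) - 1)) :=
          mul_le_mul_of_nonneg_right h4 hn0
      _ = _ := by ring
  exact le_of_mul_le_mul_left h6 hCpos

lemma lower_two (N a : ℕ) (ha : a ≤ 4) (G : SimpleGraph (Fin (N + a)))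
    (hG : G.edgeSet.ncard = N.choose 2) : N ^ 2 / 4 ≤ maxBis G := by
  by_contra hcon
  push Not at hcon
  have hN2 : 2 ≤ N := by
    by_contra h
    have : N = 0 ∨ N = 1 := by omega
    rcases this with rfl | rfl <;> simp at hcon
  have h1 := avg (by omega) G
  rw [hG, Nat.cast_choose_two] at h1
  have h2 : (maxBis G : ℝ) ≤ ((N ^ 2 / 4 : ℕ) : ℝ) - 1 := by
    have : maxBis G + 1 ≤ N ^ 2 / 4 := hcon
    have : ((maxBis G + 1 : ℕ) : ℝ) ≤ ((N ^ 2 / 4 : ℕ) : ℝ) := by exact_mod_cast this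
    push_cast at this
    linarith
  have hnn : 0 ≤ ((N + a : ℕ) : ℝ) * (((N + a : ℕ) : ℝ) - 1) := by
    have : (2 : ℝ) ≤ ((N + a : ℕ) : ℝ) := by exact_mod_cast (by omega : 2 ≤ N + a)
    nlinarith
  have h3 := h1.trans (mul_le_mul_of_nonneg_right h2 hnn)
  clear h1 h2 hnn hcon hG G
  rcases Nat.even_or_odd' N with ⟨k, rfl | rfl⟩
  · have hk : (1 : ℝ) ≤ (k : ℝ) := by exact_mod_cast (by omega : 1 ≤ k)
    have e3 : (2 * k) ^ 2 / 4 = k ^ 2 := by
      rw [show (2 * k) ^ 2 = 4 * k ^ 2 by ring]; omega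
    rw [e3] at h3
    interval_cases a
    · have e1 : (2 * k + 0) / 2 = k := by omega
      have e2 : 2 * k + 0 - k = k := by omega
      rw [e1, e2] at h3
      push_cast at h3
      nlinarith
    · have e1 : (2 * k + 1) / 2 = k := by omega
      have e2 : 2 * k + 1 - k = k + 1 := by omega
      rw [e1, e2] at h3
      push_cast at h3
      nlinarith
    · have e1 : (2 * k + 2) / 2 = k + 1 := by omega
      have e2 : 2 * k + 2 - (k + 1) = k + 1 := by omega
      rw [e1, e2] at h3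
      push_cast at h3
      nlinarith
    · have e1 : (2 * k + 3) / 2 = k + 1 := by omega
      have e2 : 2 * k + 3 - (k + 1) = k + 2 := by omega
      rw [e1, e2] at h3
      push_cast at h3
      nlinarith
    · have e1 : (2 * k + 4) / 2 = k + 2 := by omega
      have e2 : 2 * k + 4 - (k + 2) = k + 2 := by omega
      rw [e1, e2] at h3
      push_cast at h3
      nlinarith
  · have hk : (1 : ℝ) ≤ (k : ℝ) := by exact_mod_cast (by omega : 1 ≤ k)
    have e3 : (2 * k + 1) ^ 2 / 4 = k ^ 2 + k := by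
      rw [show (2 * k + 1) ^ 2 = 4 * (k ^ 2 + k) + 1 by ring]; omega
    rw [e3] at h3
    interval_cases a
    · have e1 : (2 * k + 1 + 0) / 2 = k := by omega
      have e2 : 2 * k + 1 + 0 - k = k + 1 := by omega
      rw [e1, e2] at h3
      push_cast at h3
      nlinarith
    · have e1 : (2 * k + 1 + 1) / 2 = k + 1 := by omega
      have e2 : 2 * k + 1 + 1 - (k + 1) = k + 1 := by omega
      rw [e1, e2] at h3
      push_cast at h3
      nlinarith
    · have e1 : (2 * k + 1 + 2) / 2 = k + 1 := by omega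
      have e2 : 2 * k + 1 + 2 - (k + 1) = k + 2 := by omega
      rw [e1, e2] at h3
      push_cast at h3
      nlinarith
    · have e1 : (2 * k + 1 + 3) / 2 = k + 2 := by omega
      have e2 : 2 * k + 1 + 3 - (k + 2) = k + 2 := by omega
      rw [e1, e2] at h3
      push_cast at h3
      nlinarith
    · have e1 : (2 * k + 1 + 4) / 2 = k + 2 := by omega
      have e2 : 2 * k + 1 + 4 - (k + 2) = k + 3 := by omega
      rw [e1, e2] at h3
      push_cast at h3
      nlinarith

end Pool.Agent.Lib.MP_279640_coF
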