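import Mathlib
import Pool.Agent.Lib.MP_279640_coF.Aug

set_option autoImplicit false
set_option linter.unusedSectionVars false
open scoped Classical
open Finset

namespace Pool.Agent.Lib.MP_279640_coF

open Pool.Agent.Lib.MP_279640_co

variable {V : Type} [Fintype V] {ν : ℕ}

lemma sum_split {G : SimpleGraph V} {g h : Fin ν → V} (hm : MM G g h) (f : V → ℝ) :
    ∑ v, f v = ∑ i, f (g i) + ∑ i, f (h i) + ∑ v ∈ Finset.univ.filter (fun v => Ex g h v), f v := by
  rw [← Finset.sum_filter_add_sum_filter_not Finset.univ (fun v => Ex g h v) f, add_comm]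
  congr 1
  have h1 : Finset.univ.filter (fun v => ¬ Ex g h v) = Finset.univ.image (Sum.elim g h) := by
    ext v
    simp only [Finset.mem_filter, Finset.mem_univ, true_and, Finset.mem_image]
    constructor
    · intro hv
      by_contra hcon
      apply hv
      refine ⟨fun i hi => hcon ⟨Sum.inl i, hi⟩, fun i hi => hcon ⟨Sum.inr i, hi⟩⟩
    · rintro ⟨x, rfl⟩ hv
      rcases x with i | i
      · exact hv.1 i rfl
      · exact hv.2 i rfl
  rw [h1, Finset.sum_image (fun a _ b _ hab => hm.1 hab), Fintype.sum_sum_type]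
  rfl

lemma card_split {G : SimpleGraph V} {g h : Fin ν → V} (hm : MM G g h) :
    (Fintype.card V : ℝ) = 2 * ν + ((Finset.univ.filter (fun v => Ex g h v)).card : ℝ) := by
  have := sum_split hm (fun _ => (1 : ℝ))
  simp only [Finset.sum_const, Finset.card_univ, Fintype.card_fin, nsmul_eq_mul, mul_one] at this
  linarith

lemma sum_A_card {ι : Type} (G : SimpleGraph V) (S : Finset ι) (u : V) (f : ι → V) :
    ∑ i ∈ S, A G u (f i) ≤ (S.card : ℝ) := by
  calc ∑ i ∈ S, A G u (f i) ≤ ∑ i ∈ S, (1 : ℝ) := Finset.sum_le_sum fun i _ => A_le_one G _ _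
    _ = _ := by simp

lemma sum_A_card_sub {ι : Type} (G : SimpleGraph V) (S : Finset ι) (f : ι → V) {k : ι}
    (hk : k ∈ S) : ∑ i ∈ S, A G (f k) (f i) ≤ (S.card : ℝ) - 1 := by
  rw [← Finset.add_sum_erase S _ hk, A_self, zero_add]
  have h1 := sum_A_card G (S.erase k) (f k) f
  rw [Finset.card_erase_of_mem hk, Nat.cast_sub (Finset.card_pos.mpr ⟨k, hk⟩)] at h1
  simpa using h1

/-- At most one exposed neighbour. -/
lemma sum_ex_le {G : SimpleGraph V} {g h : Fin ν → V} {u : V} (hu : ¬ P2 G g h u) :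
    ∑ v ∈ Finset.univ.filter (fun v => Ex g h v), A G u v ≤ 1 := by
  unfold A
  rw [Finset.sum_boole]
  have : ((Finset.univ.filter (fun v => Ex g h v)).filter (fun v => G.Adj u v)).card ≤ 1 := by
    rw [Finset.card_le_one]
    intro a ha b hb
    simp only [Finset.mem_filter, Finset.mem_univ, true_and] at ha hb
    by_contra hab
    exact hu ⟨a, b, hab, ha.1, hb.1, ha.2, hb.2⟩
  exact_mod_cast this

/-- Two `0,1`-families with no cross pair of ones. -/
lemma cross_le {ι : Type} (S : Finset ι) (x y : ι → ℝ) (hx : ∀ i, x i = 0 ∨ x i = 1)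
    (hy : ∀ i, y i = 0 ∨ y i = 1)
    (hxy : ∀ i ∈ S, ∀ j ∈ S, i ≠ j → ¬ (x i = 1 ∧ y j = 1)) :
    ∑ i ∈ S, (x i + y i) ≤ (S.card : ℝ) + 1 := by
  by_cases h : ∃ k ∈ S, x k = 1 ∧ y k = 1
  · obtain ⟨k, hk, h1, h2⟩ := h
    rw [← Finset.add_sum_erase S _ hk, h1, h2]
    have h3 : ∑ i ∈ S.erase k, (x i + y i) = 0 := by
      apply Finset.sum_eq_zero
      intro i hi
      have hi' := Finset.mem_erase.mp hi
      have e1 : x i = 0 := by
        rcases hx i with h | h
        · exact h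
        · exact absurd ⟨h, h2⟩ (hxy i hi'.2 k hk hi'.1)
      have e2 : y i = 0 := by
        rcases hy i with h | h
        · exact h
        · exact absurd ⟨h1, h⟩ (hxy k hk i hi'.2 (Ne.symm hi'.1))
      rw [e1, e2]; ring
    rw [h3]
    have : (1 : ℝ) ≤ S.card := by exact_mod_cast Finset.card_pos.mpr ⟨k, hk⟩
    linarith
  · push Not at h
    have : ∑ i ∈ S, (x i + y i) ≤ ∑ i ∈ S, (1 : ℝ) := by
      apply Finset.sum_le_sum
      intro i hi
      rcases hx i with h1 | h1 <;> rcases hy i with h2 | h2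
      · rw [h1, h2]; norm_num
      · rw [h1, h2]; norm_num
      · rw [h1, h2]; norm_num
      · exact absurd h2 (h i hi h1)
    rw [Finset.sum_const, nsmul_eq_mul, mul_one] at this
    linarith

lemma A_eq_one {G : SimpleGraph V} {u v : V} (h : A G u v = 1) : G.Adj u v := by
  unfold A at h
  by_contra hcon
  rw [if_neg hcon] at h
  norm_num at h

lemma A_eq_zero {G : SimpleGraph V} {u v : V} (h : ¬ G.Adj u v) : A G u v = 0 := by
  unfold A; rw [if_neg h]

/-- The count of Erdős–Gallai type. -/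
lemma eg_count {G : SimpleGraph V} {g h : Fin ν → V} (hm : MM G g h)
    (hno : ¬ HasMatch G (ν + 1)) (hor : ∀ i, ¬ P2 G g h (h i)) :
    ∃ a r : ℕ, a + r = ν ∧ ∑ u, ∑ v, A G u v ≤
      2 * (a : ℝ) * Fintype.card V - a - (a : ℝ) ^ 2 + 2 * r * a + 4 * (r : ℝ) ^ 2 + 4 * r := by
  set H : Finset (Fin ν) := Finset.univ.filter (fun i => P2 G g h (g i)) with hH
  set I : Finset V := Finset.univ.filter (fun v => Ex g h v) with hI
  have hmemI : ∀ v, v ∈ I ↔ Ex g h v := by intro v; simp [hI]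
  have hmemH : ∀ i, i ∈ H ↔ P2 G g h (g i) := by intro i; simp [hH]
  have hmemHc : ∀ i, i ∈ Hᶜ ↔ ¬ P2 G g h (g i) := by
    intro i; rw [Finset.mem_compl, hmemH]
  refine ⟨H.card, Hᶜ.card, ?_, ?_⟩
  · rw [Finset.card_compl, Fintype.card_fin]
    have := Finset.card_le_univ H
    rw [Fintype.card_fin] at this
    omega
  have hν : (ν : ℝ) = H.card + Hᶜ.card := by
    have : H.card + Hᶜ.card = ν := by
      rw [Finset.card_compl, Fintype.card_fin]
      have := Finset.card_le_univ H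
      rw [Fintype.card_fin] at this
      omega
    exact_mod_cast this.symm
  have hcard := card_split hm
  rw [← hI] at hcard
  set a : ℝ := (H.card : ℝ) with ha
  set r : ℝ := (Hᶜ.card : ℝ) with hr
  set n : ℝ := (Fintype.card V : ℝ) with hn
  -- facts
  have f1 : ∀ u ∈ I, ∀ v ∈ I, A G u v = 0 := fun u hu v hv =>
    A_eq_zero fun hadj => ind hm hno ((hmemI u).mp hu) ((hmemI v).mp hv) hadj
  have f2 : ∀ i ∈ H, ∀ v ∈ I, A G (h i) v = 0 := by
    intro i hi v hv
    apply A_eq_zero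
    intro hadj
    obtain ⟨x, y, hxy, hx, hy, h1, h2⟩ := (hmemH i).mp hi
    by_cases hc : x = v
    · exact F2 hm hno hy ((hmemI v).mp hv) (by rw [← hc]; exact hxy.symm) h2 hadj
    · exact F2 hm hno hx ((hmemI v).mp hv) hc h1 hadj
  have two : ∀ i ∈ H, ∀ j ∈ H, ∃ x y, x ≠ y ∧ Ex g h x ∧ Ex g h y ∧ G.Adj (g i) x ∧ G.Adj (g j) y := by
    intro i hi j hj
    obtain ⟨x, y, hxy, hx, hy, h1, h2⟩ := (hmemH i).mp hi
    obtain ⟨x', y', hxy', hx', hy', h1', h2'⟩ := (hmemH j).mp hj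
    by_cases hc : x = x'
    · exact ⟨x, y', by rw [hc]; exact hxy', hx, hy', h1, h2'⟩
    · exact ⟨x, x', hc, hx, hx', h1, h1'⟩
  have f3 : ∀ i ∈ H, ∀ j ∈ H, A G (h i) (h j) = 0 := by
    intro i hi j hj
    by_cases hij : i = j
    · rw [hij]; exact A_self G _
    · apply A_eq_zero
      intro hadj
      obtain ⟨x, y, hxy, hx, hy, h1, h2⟩ := two i hi j hj
      exact F3 hm hno hij hx hy hxy h1 h2 hadj
  have f4 : ∀ k ∈ Hᶜ, ∑ i ∈ H, (A G (g k) (h i) + A G (h k) (h i)) ≤ a + 1 := by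
    intro k hk
    apply cross_le
    · intro i; exact A_cases G _ _
    · intro i; exact A_cases G _ _
    · rintro i hi j hj hij ⟨e1, e2⟩
      obtain ⟨x, y, hxy, hx, hy, h1, h2⟩ := two i hi j hj
      have hki : k ≠ i := fun hh => (Finset.mem_compl.mp hk) (hh ▸ hi)
      have hkj : k ≠ j := fun hh => (Finset.mem_compl.mp hk) (hh ▸ hj)
      exact F4 hm hno hij hki hkj hx hy hxy h1 h2 (A_eq_one e1).symm (A_eq_one e2).symm
  -- splitting a degree
  have hD : ∀ u, ∑ v, A G u v = ∑ j ∈ H, A G u (g j) + ∑ j ∈ Hᶜ, A G u (g j)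
      + ∑ j ∈ H, A G u (h j) + ∑ j ∈ Hᶜ, A G u (h j) + ∑ v ∈ I, A G u v := by
    intro u
    rw [sum_split hm (fun v => A G u v), ← Finset.sum_add_sum_compl H (fun j => A G u (g j)),
      ← Finset.sum_add_sum_compl H (fun j => A G u (h j))]
    ring
  have hS : ∑ u, ∑ v, A G u v = ∑ i ∈ H, (∑ v, A G (g i) v) + ∑ k ∈ Hᶜ, (∑ v, A G (g k) v)
      + ∑ i ∈ H, (∑ v, A G (h i) v) + ∑ k ∈ Hᶜ, (∑ v, A G (h k) v)
      + ∑ u ∈ I, (∑ v, A G u v) := by
    rw [sum_split hm (fun u => ∑ v, A G u v),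
      ← Finset.sum_add_sum_compl H (fun j => ∑ v, A G (g j) v),
      ← Finset.sum_add_sum_compl H (fun j => ∑ v, A G (h j) v)]
    ring
  -- hubs
  have b1 : ∑ i ∈ H, (∑ v, A G (g i) v) ≤ a * (n - 1) := by
    calc ∑ i ∈ H, (∑ v, A G (g i) v) ≤ ∑ i ∈ H, (n - 1) := by
          apply Finset.sum_le_sum
          intro i _
          have := sum_A_card_sub G (Finset.univ : Finset V) (fun v => v) (Finset.mem_univ (g i))
          rw [Finset.card_univ] at this
          exact this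
      _ = _ := by rw [Finset.sum_const, nsmul_eq_mul]
  -- ordinary matched pairs
  have b2 : ∑ k ∈ Hᶜ, (∑ v, A G (g k) v) + ∑ k ∈ Hᶜ, (∑ v, A G (h k) v)
      ≤ r * (2 * a + 2 * (2 * r - 1) + (a + 1) + 2) := by
    rw [← Finset.sum_add_distrib]
    calc ∑ k ∈ Hᶜ, (∑ v, A G (g k) v + ∑ v, A G (h k) v)
        ≤ ∑ k ∈ Hᶜ, (2 * a + 2 * (2 * r - 1) + (a + 1) + 2) := by
          apply Finset.sum_le_sum
          intro k hk
          rw [hD, hD]
          have e1 := sum_A_card G H (g k) g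
          have e2 := sum_A_card G H (h k) g
          have e3 := sum_A_card_sub G Hᶜ g hk
          have e4 := sum_A_card_sub G Hᶜ h hk
          have e5 := sum_A_card G Hᶜ (g k) h
          have e6 := sum_A_card G Hᶜ (h k) g
          have e7 := sum_ex_le ((hmemHc k).mp hk)
          have e8 := sum_ex_le (hor k)
          have e9 := f4 k hk
          rw [Finset.sum_add_distrib] at e9
          rw [← hI] at e7 e8
          linarith
      _ = _ := by rw [Finset.sum_const, nsmul_eq_mul]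
  -- partners of hubs
  have b3 : ∑ i ∈ H, (∑ v, A G (h i) v) ≤ a * a + r * (a + 1) := by
    have e1 : ∀ i ∈ H, ∑ v, A G (h i) v ≤ a + ∑ k ∈ Hᶜ, (A G (g k) (h i) + A G (h k) (h i)) := by
      intro i hi
      rw [hD, Finset.sum_add_distrib]
      have e1 := sum_A_card G H (h i) g
      have e2 : ∑ j ∈ H, A G (h i) (h j) = 0 := Finset.sum_eq_zero fun j hj => f3 i hi j hj
      have e3 : ∑ v ∈ I, A G (h i) v = 0 := Finset.sum_eq_zero fun v hv => f2 i hi v hv
      have e4 : ∑ j ∈ Hᶜ, A G (h i) (g j) = ∑ j ∈ Hᶜ, A G (g j) (h i) :=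
        Finset.sum_congr rfl fun j _ => A_comm G _ _
      have e5 : ∑ j ∈ Hᶜ, A G (h i) (h j) = ∑ j ∈ Hᶜ, A G (h j) (h i) :=
        Finset.sum_congr rfl fun j _ => A_comm G _ _
      linarith
    calc ∑ i ∈ H, (∑ v, A G (h i) v)
        ≤ ∑ i ∈ H, (a + ∑ k ∈ Hᶜ, (A G (g k) (h i) + A G (h k) (h i))) := Finset.sum_le_sum e1
      _ = a * a + ∑ k ∈ Hᶜ, ∑ i ∈ H, (A G (g k) (h i) + A G (h k) (h i)) := by
          rw [Finset.sum_add_distrib, Finset.sum_const, nsmul_eq_mul, Finset.sum_comm]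
      _ ≤ a * a + ∑ k ∈ Hᶜ, (a + 1) := by
          have := Finset.sum_le_sum f4
          linarith
      _ = _ := by rw [Finset.sum_const, nsmul_eq_mul]
  -- exposed vertices
  have b4 : ∑ u ∈ I, (∑ v, A G u v) ≤ a * (I.card : ℝ) + 2 * r := by
    have e1 : ∀ u ∈ I, ∑ v, A G u v ≤ a + ∑ k ∈ Hᶜ, (A G (g k) u + A G (h k) u) := by
      intro u hu
      rw [hD, Finset.sum_add_distrib]
      have e1 := sum_A_card G H u g
      have e2 : ∑ j ∈ H, A G u (h j) = 0 := Finset.sum_eq_zero fun j hj => by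
        rw [A_comm]; exact f2 j hj u hu
      have e3 : ∑ v ∈ I, A G u v = 0 := Finset.sum_eq_zero fun v hv => f1 u hu v hv
      have e4 : ∑ j ∈ Hᶜ, A G u (g j) = ∑ j ∈ Hᶜ, A G (g j) u :=
        Finset.sum_congr rfl fun j _ => A_comm G _ _
      have e5 : ∑ j ∈ Hᶜ, A G u (h j) = ∑ j ∈ Hᶜ, A G (h j) u :=
        Finset.sum_congr rfl fun j _ => A_comm G _ _
      linarith
    calc ∑ u ∈ I, (∑ v, A G u v)
        ≤ ∑ u ∈ I, (a + ∑ k ∈ Hᶜ, (A G (g k) u + A G (h k) u)) := Finset.sum_le_sum e1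
      _ = (I.card : ℝ) * a + ∑ k ∈ Hᶜ, (∑ u ∈ I, A G (g k) u + ∑ u ∈ I, A G (h k) u) := by
          rw [Finset.sum_add_distrib, Finset.sum_const, nsmul_eq_mul, Finset.sum_comm]
          congr 1
          refine Finset.sum_congr rfl fun k _ => ?_
          rw [Finset.sum_add_distrib]
      _ ≤ (I.card : ℝ) * a + ∑ k ∈ Hᶜ, (2 : ℝ) := by
          have : ∑ k ∈ Hᶜ, (∑ u ∈ I, A G (g k) u + ∑ u ∈ I, A G (h k) u) ≤ ∑ k ∈ Hᶜ, (2 : ℝ) := by
            apply Finset.sum_le_sum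
            intro k hk
            have e7 := sum_ex_le ((hmemHc k).mp hk)
            have e8 := sum_ex_le (hor k)
            rw [← hI] at e7 e8
            linarith
          linarith
      _ = _ := by rw [Finset.sum_const, nsmul_eq_mul]; ring
  have hIc : (I.card : ℝ) = n - 2 * (a + r) := by rw [← hν]; linarith
  rw [hIc] at b4
  rw [hS]
  nlinarith

/-- Enough edges force a matching of size `p`. -/
lemma match_of_edges {G : SimpleGraph V} {p : ℕ} (hn : 2 * Fintype.card V ≤ 5 * p + 2)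
    (hE : 2 * (p : ℝ) * (2 * p - 1) ≤ ∑ u, ∑ v, A G u v) :
    ∃ (ν : ℕ) (g h : Fin ν → V), p ≤ ν ∧ MM G g h := by
  obtain ⟨ν, ⟨g0, h0, hinj, hadj⟩, hno⟩ := exists_max_match G
  have hm0 : MM G g0 h0 := ⟨hinj, hadj⟩
  by_cases hν : p ≤ ν
  · exact ⟨ν, g0, h0, hν, hm0⟩
  exfalso
  push Not at hν
  obtain ⟨g, h, hm, hor⟩ := orient hm0 hno
  obtain ⟨a, r, har, hS⟩ := eg_count hm hno hor
  have hnR : 2 * (Fintype.card V : ℝ) ≤ 5 * p + 2 := by exact_mod_cast hn
  have ha0 : (0 : ℝ) ≤ a := Nat.cast_nonneg a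
  have hr0 : (0 : ℝ) ≤ r := Nat.cast_nonneg r
  have hle : (a : ℝ) + r + 1 ≤ p := by exact_mod_cast (by omega : a + r + 1 ≤ p)
  set n : ℝ := (Fintype.card V : ℝ) with hndef
  have h1 : 2 * (a : ℝ) * n ≤ a * (5 * p + 2) := by nlinarith
  -- monotone in r
  have h2 : 4 * (r : ℝ) ^ 2 + 4 * r + 2 * r * a
      ≤ 4 * ((p : ℝ) - 1 - a) ^ 2 + 4 * (p - 1 - a) + 2 * (p - 1 - a) * a := by
    have e1 : 0 ≤ (p : ℝ) - 1 - a - r := by linarith
    have e2 : 0 ≤ 4 * ((p : ℝ) - 1 - a + r) + 4 + 2 * a := by linarith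
    nlinarith [mul_nonneg e1 e2]
  have h3 : (a : ℝ) * (a + 3 - p) ≤ 2 * (p - 1) := by
    have e1 : (a : ℝ) + 3 - p ≤ 2 := by linarith
    have e2 : (a : ℝ) * (a + 3 - p) ≤ a * 2 := mul_le_mul_of_nonneg_left e1 ha0
    linarith
  nlinarith

end Pool.Agent.Lib.MP_279640_coF
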