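import Mathlib
import Pool.Agent.Lib.MP_279640_co.Upper
import Pool.Agent.Lib.MP_279640_co.Clique

set_option autoImplicit false
set_option linter.unusedSectionVars false
open scoped Classical
open Finset

namespace Pool.Agent.Lib.MP_279640_coF

open Pool.Agent.Lib.MP_279640_co

lemma hub_real (n b : ℕ) (hb : b ≤ n) :
    ((hubEdges n b : ℕ) : ℝ) = (b : ℝ) * n - (b : ℝ) * (b + 1) / 2 := by
  unfold hubEdges
  push_cast
  rw [Nat.cast_choose_two, Nat.cast_sub hb]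
  ring

/-- The lower bound by the minimum of the formula. -/
lemma lower_of (m n : ℕ) (hm : 1 ≤ m) (hmn : m ≤ n.choose 2) (hn : 12 * Real.sqrt m ≤ (n : ℝ))
    (C : ℝ) (h : ∀ b ≤ n, C ≤ 4 * ((b : ℝ) * (((n + 1) / 2 : ℕ) : ℝ))
      + 4 * E ((m - hubEdges n b : ℕ) : ℝ)) : C ≤ 4 * (bis m n : ℝ) := by
  obtain ⟨G, hG, hb⟩ := exists_bis m n hmn
  have hsum := sum_A_eq G
  rw [hG] at hsum
  have hbal := bal_maxBis G
  rw [hG, ← hb] at hbal
  obtain ⟨a, ha, h1⟩ := lower_exact hbal m hsum hm (by rw [Fintype.card_fin]; exact hn)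
  rw [Fintype.card_fin] at ha h1
  have h2 := h a ha
  linarith

lemma four_E_ge (r t : ℝ) (ht : 0 ≤ t) (h : t ^ 2 + t ≤ 2 * r) :
    2 * r + t ≤ 4 * E r := by
  rw [four_E]
  have h1 : 2 * t + 1 ≤ Real.sqrt (8 * r + 1) := by
    apply Real.le_sqrt_of_sq_le
    nlinarith [ht]
  linarith

lemma four_E_ge0 (r : ℝ) (hr : 0 ≤ r) : 2 * r ≤ 4 * E r := by
  have := four_E_ge r 0 le_rfl (by nlinarith)
  linarith

lemma sub_ge (m M : ℕ) : (m : ℝ) - M ≤ ((m - M : ℕ) : ℝ) := by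
  rcases le_total M m with h | h
  · rw [Nat.cast_sub h]
  · rw [Nat.sub_eq_zero_of_le h]
    have : (m : ℝ) ≤ M := by exact_mod_cast h
    simpa using this

/-- The window inequality on the upper side. -/
lemma window_up (k A j : ℝ) (hA : 1 ≤ A) (hj : 0 ≤ j) (hj1 : j = 0 ∨ 1 ≤ j)
    (hk : 16 * A ^ 2 ≤ k) (hs : (j + 1) * (2 * A + j) ≤ k) :
    4 * A * (k - A) ≤ (2 * A + j) * (2 * k - (j + 1) * (2 * A + j)) := by
  rcases hj1 with rfl | hj1
  · nlinarith
  · have hk0 : 0 ≤ k := by nlinarith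
    have key : (j + 1) * (2 * A + j) ^ 2 ≤ 2 * j * k := by
      rcases le_total (2 * A) j with h | h
      · calc (j + 1) * (2 * A + j) ^ 2 = ((j + 1) * (2 * A + j)) * (2 * A + j) := by ring
          _ ≤ k * (2 * A + j) := mul_le_mul_of_nonneg_right hs (by linarith)
          _ ≤ k * (j + j) := mul_le_mul_of_nonneg_left (by linarith) hk0
          _ = 2 * j * k := by ring
      · have h1 : (2 * A + j) ^ 2 ≤ k := by nlinarith
        calc (j + 1) * (2 * A + j) ^ 2 ≤ (j + 1) * k :=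
              mul_le_mul_of_nonneg_left h1 (by linarith)
          _ ≤ (j + j) * k := mul_le_mul_of_nonneg_right (by linarith) hk0
          _ = 2 * j * k := by ring
    nlinarith

/-- The window inequality on the lower side. -/
lemma window_down (k α i : ℝ) (hα : 0 ≤ α) (hi : 0 ≤ i) (hiα : i ≤ α)
    (hk : 2 * α ^ 2 ≤ k) :
    (2 * α - i) * (2 * k + (i + 1) * (2 * α - i)) ≤ 4 * α * (k + α) := by
  have h1 : (2 * α - i) ^ 2 ≤ 4 * α ^ 2 := by nlinarith
  have h2 : (i + 1) * (2 * α - i) ^ 2 ≤ (i + 1) * (4 * α ^ 2) :=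
    mul_le_mul_of_nonneg_left h1 (by linarith)
  have h3 : i * (2 * α ^ 2) ≤ i * k := mul_le_mul_of_nonneg_left hk hi
  nlinarith

/-- The minimum of the formula in the window. -/
lemma min_window (n a k e t : ℕ) (hc : 2 * ((n + 1) / 2) = n + e)
    (hk : 16 * (a + e + 1) ^ 2 ≤ k) (h1 : 2 * (a + e) * (k + a + e) ≤ n + e)
    (h2 : n + e ≤ 2 * (a + e + 1) * (k - (a + e + 1))) (ha : a ≤ n) (b : ℕ) (hb : b ≤ n) :
    4 * ((a : ℝ) * (((n + 1) / 2 : ℕ) : ℝ)) + ((k : ℝ) ^ 2 - 1) + 2 * t ≤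
      4 * ((b : ℝ) * (((n + 1) / 2 : ℕ) : ℝ))
      + 4 * E ((hubEdges n a + k.choose 2 + t - hubEdges n b : ℕ) : ℝ) := by
  set r : ℝ := ((hubEdges n a + k.choose 2 + t - hubEdges n b : ℕ) : ℝ) with hr
  have hr0 : 0 ≤ r := by rw [hr]; positivity
  have hrge : ((hubEdges n a + k.choose 2 + t : ℕ) : ℝ) - (hubEdges n b : ℕ) ≤ r := sub_ge _ _
  have ht0 : (0 : ℝ) ≤ t := Nat.cast_nonneg t
  rw [Nat.cast_add, Nat.cast_add, hub_real n a ha, hub_real n b hb, Nat.cast_choose_two] at hrge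
  have hcR : 2 * (((n + 1) / 2 : ℕ) : ℝ) = (n : ℝ) + e := by exact_mod_cast hc
  set c : ℝ := (((n + 1) / 2 : ℕ) : ℝ) with hcdef
  have hkR : 16 * ((a : ℝ) + e + 1) ^ 2 ≤ k := by exact_mod_cast hk
  have h1R : 2 * ((a : ℝ) + e) * (k + a + e) ≤ n + e := by exact_mod_cast h1
  have hkA : a + e + 1 ≤ k := by nlinarith
  have h2R : (n : ℝ) + e ≤ 2 * ((a : ℝ) + e + 1) * (k - (a + e + 1)) := by
    have : ((n + e : ℕ) : ℝ) ≤ ((2 * (a + e + 1) * (k - (a + e + 1)) : ℕ) : ℝ) := by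
      exact_mod_cast h2
    rw [Nat.cast_mul, Nat.cast_sub hkA] at this
    push_cast at this
    linarith
  have ha0 : (0 : ℝ) ≤ a := Nat.cast_nonneg a
  have he0 : (0 : ℝ) ≤ e := Nat.cast_nonneg e
  have hk0 : (0 : ℝ) ≤ k := Nat.cast_nonneg k
  rcases lt_trichotomy b a with hlt | heq | hgt
  · -- b = a - i, i ≥ 1
    obtain ⟨i, hi⟩ : ∃ i, a = b + (i + 1) := ⟨a - b - 1, by omega⟩
    have hiR : (a : ℝ) = b + (i + 1) := by rw [hi]; push_cast; ring
    have hi0 : (0 : ℝ) ≤ i := Nat.cast_nonneg i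
    have hb0 : (0 : ℝ) ≤ b := Nat.cast_nonneg b
    have hw := window_down k ((a : ℝ) + e) i (by positivity) hi0 (by rw [hiR]; linarith)
      (by nlinarith)
    have hbR : (b : ℝ) = a - (i + 1) := by rw [hiR]; ring
    set s : ℝ := 2 * ((a : ℝ) + e) - i with hs
    have hs0 : 0 ≤ s := by rw [hs, hiR]; linarith
    have hE := four_E_ge r ((k : ℝ) - 1 + (i + 1) * s) (by
      have : (1 : ℝ) ≤ k := by nlinarith
      have : 0 ≤ ((i : ℝ) + 1) * s := by positivity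
      linarith) (by
      rw [hbR] at hrge
      have h3 : s * (2 * k + (i + 1) * s) ≤ 2 * (n + e) := by nlinarith
      have h4 : ((i : ℝ) + 1) * (s * (2 * k + (i + 1) * s)) ≤ (i + 1) * (2 * (n + e)) :=
        mul_le_mul_of_nonneg_left h3 (by linarith)
      nlinarith)
    rw [hbR] at hrge ⊢
    nlinarith
  · subst heq
    have hE := four_E_ge r ((k : ℝ) - 1) (by nlinarith) (by nlinarith)
    nlinarith
  · obtain ⟨j, hj⟩ : ∃ j, b = a + (j + 1) := ⟨b - a - 1, by omega⟩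
    have hjR : (b : ℝ) = a + (j + 1) := by rw [hj]; push_cast; ring
    have hj0 : (0 : ℝ) ≤ j := Nat.cast_nonneg j
    have hj1 : (j : ℝ) = 0 ∨ (1 : ℝ) ≤ j := by
      rcases Nat.eq_zero_or_pos j with h | h
      · left; rw [h]; simp
      · right; exact_mod_cast h
    set s : ℝ := 2 * ((a : ℝ) + e + 1) + j with hs
    have hs0 : 0 ≤ s := by rw [hs]; linarith
    by_cases hjs : ((j : ℝ) + 1) * s ≤ k - 1
    · have hw := window_up k ((a : ℝ) + e + 1) j (by linarith) hj0 hj1 hkR (by linarith)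
      have hE := four_E_ge r ((k : ℝ) - 1 - (j + 1) * s) (by linarith) (by
        rw [hjR] at hrge
        have h3 : 2 * (n + e) ≤ s * (2 * k - (j + 1) * s) := by nlinarith
        have h4 : ((j : ℝ) + 1) * (2 * (n + e)) ≤ (j + 1) * (s * (2 * k - (j + 1) * s)) :=
          mul_le_mul_of_nonneg_left h3 (by linarith)
        nlinarith)
      rw [hjR] at hrge ⊢
      nlinarith
    · push Not at hjs
      have hE := four_E_ge0 r hr0
      rw [hjR] at hrge ⊢
      nlinarith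

end Pool.Agent.Lib.MP_279640_coF
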