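import Mathlib
import Pool.Agent.Lib.MP_279640_coF.Sparse

set_option autoImplicit false
set_option linter.unusedSectionVars false
open scoped Classical
open Finset

namespace Pool.Agent.Lib.MP_279640_coF

open Pool.Agent.Lib.MP_279640_co

lemma twelve_sqrt (m n : ℕ) (h : 144 * (m : ℝ) ≤ (n : ℝ) ^ 2) : 12 * Real.sqrt m ≤ (n : ℝ) := by
  have h1 : Real.sqrt m ≤ (n : ℝ) / 12 := by
    apply Real.sqrt_le_iff.mpr
    refine ⟨by positivity, ?_⟩
    nlinarith
  linarith

lemma hub_le_choose (n a : ℕ) (ha : a ≤ n) (k : ℕ) (hk : a + k ≤ n) :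
    hubEdges n a + k.choose 2 ≤ n.choose 2 := by
  have h1 : ((hubEdges n a + k.choose 2 : ℕ) : ℝ) ≤ ((n.choose 2 : ℕ) : ℝ) := by
    rw [Nat.cast_add, hub_real n a ha, Nat.cast_choose_two, Nat.cast_choose_two]
    obtain ⟨t, ht⟩ : ∃ t, n = a + k + t := ⟨n - a - k, by omega⟩
    have htR : (n : ℝ) = a + k + t := by rw [ht]; push_cast; ring
    rw [htR]
    have h0 : (0 : ℝ) ≤ (t : ℝ) * k := by positivity
    have h2 : (0 : ℝ) ≤ (t : ℝ) * (t - 1) := by
      rcases Nat.eq_zero_or_pos t with h | h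
      · rw [h]; simp
      · have : (1 : ℝ) ≤ t := by exact_mod_cast h
        exact mul_nonneg (by linarith) (by linarith)
    nlinarith
  exact_mod_cast h1

/-- The rounding step. -/
lemma round_step (k l x : ℕ) (hl : l ≤ 3) (h : k ^ 2 + l ^ 2 ≤ 4 * x + l + 1) :
    (k ^ 2 + l ^ 2) / 4 ≤ x := by
  have hk : k ^ 2 % 4 = 0 ∨ k ^ 2 % 4 = 1 := by
    rcases Nat.even_or_odd' k with ⟨y, rfl | rfl⟩
    · left
      rw [show (2 * y) ^ 2 = 4 * y ^ 2 by ring]; omega
    · right
      rw [show (2 * y + 1) ^ 2 = 4 * (y ^ 2 + y) + 1 by ring]; omega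
  interval_cases l <;> omega

/-- Upper bound from hubs and two cliques. -/
lemma upper_kl (n a k l : ℕ) (h : a + k + 2 * l ≤ n) :
    bis (hubEdges n a + k.choose 2 + l.choose 2) n
      ≤ a * ((n + 1) / 2) + (k ^ 2 + l ^ 2) / 4 := by
  have h3 := bis_clqs_le (hubEdges n a + k.choose 2 + l.choose 2) n a k l 0 h (by simp) (by simp)
  have h4 : 4 * (bis (hubEdges n a + k.choose 2 + l.choose 2) n : ℝ)
      ≤ 4 * ((a : ℝ) * (((n + 1) / 2 : ℕ) : ℝ)) + (k : ℝ) ^ 2 + (l : ℝ) ^ 2 := by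
    rw [add_zero, Nat.cast_add, Nat.cast_choose_two, Nat.cast_choose_two, Nat.cast_zero] at h3
    linarith
  have h5 : 4 * bis (hubEdges n a + k.choose 2 + l.choose 2) n
      ≤ 4 * (a * ((n + 1) / 2)) + k ^ 2 + l ^ 2 := by
    exact_mod_cast h4
  omega

lemma two_choose (l : ℕ) : (2 : ℝ) * ((l.choose 2 : ℕ) : ℝ) = (l : ℝ) ^ 2 - l := by
  rw [Nat.cast_choose_two]; ring

lemma lchoose_le (l : ℕ) (hl : l ≤ 3) : l.choose 2 ≤ 3 := by
  interval_cases l <;> simp [Nat.choose]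

/-- Exact value in the window. -/
lemma exact_window (n a k e l : ℕ) (hl : l ≤ 3) (hc : 2 * ((n + 1) / 2) = n + e) (he : e ≤ 1)
    (hae : 5 ≤ a + e)
    (hk : 16 * (a + e + 1) ^ 2 ≤ k) (h1 : 2 * (a + e) * (k + a + e) ≤ n + e)
    (h2 : n + e ≤ 2 * (a + e + 1) * (k - (a + e + 1))) :
    bis (hubEdges n a + k.choose 2 + l.choose 2) n
      = a * ((n + 1) / 2) + (k ^ 2 + l ^ 2) / 4 := by
  have hk576 : 576 ≤ k := by nlinarith
  have hakl : a + k + 6 ≤ n := by nlinarith
  have ha : a ≤ n := by omega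
  have hkR : (576 : ℝ) ≤ k := by exact_mod_cast hk576
  have h1R : 2 * ((a : ℝ) + e) * (k + a + e) ≤ n + e := by exact_mod_cast h1
  have haeR : (5 : ℝ) ≤ (a : ℝ) + e := by exact_mod_cast hae
  have heR : (e : ℝ) ≤ 1 := by exact_mod_cast he
  have ha0 : (0 : ℝ) ≤ a := Nat.cast_nonneg a
  have he0 : (0 : ℝ) ≤ e := Nat.cast_nonneg e
  have hn10 : 10 * (k : ℝ) ≤ n := by nlinarith
  have hn1000 : 1000 * (a : ℝ) ≤ n := by nlinarith
  have hn0 : (0 : ℝ) ≤ n := Nat.cast_nonneg n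
  have hl3 := lchoose_le l hl
  have hl3R : ((l.choose 2 : ℕ) : ℝ) ≤ 3 := by exact_mod_cast hl3
  apply le_antisymm (upper_kl n a k l (by omega))
  have hk1 : 3 ≤ k := by omega
  have hm : 1 ≤ hubEdges n a + k.choose 2 + l.choose 2 := by
    have : 0 < k.choose 2 := Nat.choose_pos (by omega)
    omega
  have hmn : hubEdges n a + k.choose 2 + l.choose 2 ≤ n.choose 2 := by
    have e1 := hub_le_choose n a ha (k + 1) (by omega)
    have e2 : (k + 1).choose 2 = k.choose 2 + k := by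
      rw [Nat.choose_succ_succ' k 1, Nat.choose_one_right]; ring
    omega
  have h3 := lower_of (hubEdges n a + k.choose 2 + l.choose 2) n hm hmn
    (twelve_sqrt _ _ (by
      rw [Nat.cast_add, Nat.cast_add, hub_real n a ha, Nat.cast_choose_two ℝ k]
      nlinarith))
    (4 * ((a : ℝ) * (((n + 1) / 2 : ℕ) : ℝ)) + ((k : ℝ) ^ 2 - 1) + 2 * ((l.choose 2 : ℕ) : ℝ))
    (fun b hb => min_window n a k e (l.choose 2) hc hk h1 h2 ha b hb)
  rw [two_choose] at h3
  have h4 : ((4 * (a * ((n + 1) / 2)) + k ^ 2 + l ^ 2 : ℕ) : ℝ)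
      ≤ ((4 * bis (hubEdges n a + k.choose 2 + l.choose 2) n + l + 1 : ℕ) : ℝ) := by
    push_cast
    push_cast at h3
    linarith
  have h5 : 4 * (a * ((n + 1) / 2)) + k ^ 2 + l ^ 2
      ≤ 4 * bis (hubEdges n a + k.choose 2 + l.choose 2) n + l + 1 := by
    exact_mod_cast h4
  have hxl : a * ((n + 1) / 2) ≤ bis (hubEdges n a + k.choose 2 + l.choose 2) n := by
    have : 16 ≤ k ^ 2 := by nlinarith
    omega
  have h6 := round_step k l (bis (hubEdges n a + k.choose 2 + l.choose 2) n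
    - a * ((n + 1) / 2)) hl (by omega)
  omega

/-- The general criterion. -/
lemma exact_criterion (m n a k l : ℕ) (hm : 1 ≤ m) (hn : 12 * Real.sqrt m ≤ (n : ℝ)) (hk : 1 ≤ k)
    (hl : l ≤ 3) (hakl : a + k + 2 * l ≤ n) (hr : m - hubEdges n a = k.choose 2 + l.choose 2)
    (hmin : ∀ b ≤ n, (a : ℝ) * (((n + 1) / 2 : ℕ) : ℝ) + E ((m - hubEdges n a : ℕ) : ℝ) ≤
        (b : ℝ) * (((n + 1) / 2 : ℕ) : ℝ) + E ((m - hubEdges n b : ℕ) : ℝ)) :
    bis m n = a * ((n + 1) / 2) + (k ^ 2 + l ^ 2) / 4 := by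
  have ha : a ≤ n := by omega
  have hmR : (1 : ℝ) ≤ m := by exact_mod_cast hm
  have hn144 : 144 * (m : ℝ) ≤ (n : ℝ) ^ 2 := by
    have e1 : (0 : ℝ) ≤ 12 * Real.sqrt m := by positivity
    have e2 := pow_le_pow_left₀ e1 hn 2
    rw [mul_pow, Real.sq_sqrt (by linarith)] at e2
    linarith
  have hn144' : 144 * m ≤ n ^ 2 := by exact_mod_cast hn144
  have hn12 : 12 ≤ n := by nlinarith
  have hmn : m ≤ n.choose 2 := by
    rw [Nat.choose_two_right, Nat.le_div_iff_mul_le (by norm_num)]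
    obtain ⟨y, rfl⟩ : ∃ y, n = y + 1 := ⟨n - 1, by omega⟩
    rw [Nat.add_sub_cancel]
    nlinarith
  apply le_antisymm
  · rcases le_total m (hubEdges n a) with h | h
    · have h1 := bis_hub_le m n a ha h
      have h2 : bis m n ≤ a * ((n + 1) / 2) := by exact_mod_cast h1
      omega
    · have h1 : m = hubEdges n a + k.choose 2 + l.choose 2 := by omega
      rw [h1]
      exact upper_kl n a k l hakl
  · have h3 := lower_of m n hm hmn hn
      (4 * ((a : ℝ) * (((n + 1) / 2 : ℕ) : ℝ)) + ((k : ℝ) ^ 2 - 1) + 2 * ((l.choose 2 : ℕ) : ℝ))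
      (by
        intro b hb
        have e1 := hmin b hb
        have hkR : (1 : ℝ) ≤ k := by exact_mod_cast hk
        have hl0 : (0 : ℝ) ≤ ((l.choose 2 : ℕ) : ℝ) := Nat.cast_nonneg _
        have e2 := four_E_ge ((m - hubEdges n a : ℕ) : ℝ) ((k : ℝ) - 1) (by linarith) (by
          rw [hr, Nat.cast_add, Nat.cast_choose_two ℝ k]
          nlinarith)
        have e3 : 2 * ((m - hubEdges n a : ℕ) : ℝ) = (k : ℝ) ^ 2 - k
            + 2 * ((l.choose 2 : ℕ) : ℝ) := by
          rw [hr, Nat.cast_add, Nat.cast_choose_two ℝ k]; ring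
        linarith)
    rw [two_choose] at h3
    have h4 : ((4 * (a * ((n + 1) / 2)) + k ^ 2 + l ^ 2 : ℕ) : ℝ)
        ≤ ((4 * bis m n + l + 1 : ℕ) : ℝ) := by
      push_cast
      push_cast at h3
      linarith
    have h5 : 4 * (a * ((n + 1) / 2)) + k ^ 2 + l ^ 2 ≤ 4 * bis m n + l + 1 := by
      exact_mod_cast h4
    have hll : l ^ 2 + 1 ≥ l + 1 := by nlinarith
    have hk2 : 1 ≤ k ^ 2 := Nat.one_le_pow _ _ hk
    have hxl : a * ((n + 1) / 2) ≤ bis m n := by omega
    have h6 := round_step k l (bis m n - a * ((n + 1) / 2)) hl (by omega)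
    omega

/-- Cliques in many isolated vertices. -/
lemma exact_clique (n k l : ℕ) (hk : 18 ≤ k) (hl : l ≤ 3)
    (hn : k ^ 2 + l ^ 2 ≤ 2 * n + l + 1) :
    bis (k.choose 2 + l.choose 2) n = (k ^ 2 + l ^ 2) / 4 := by
  have hln : l ≤ l ^ 2 := by nlinarith
  have hkn : k + 6 ≤ n := by nlinarith
  have hkR : (18 : ℝ) ≤ k := by exact_mod_cast hk
  have hnR : (k : ℝ) ^ 2 + (l : ℝ) ^ 2 ≤ 2 * n + l + 1 := by exact_mod_cast hn
  have hl3 := lchoose_le l hl
  have hl3R : ((l.choose 2 : ℕ) : ℝ) ≤ 3 := by exact_mod_cast hl3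
  have hl0 : (0 : ℝ) ≤ ((l.choose 2 : ℕ) : ℝ) := Nat.cast_nonneg _
  have hl2 := two_choose l
  have hM0 : hubEdges n 0 = 0 := by simp [hubEdges]
  have hm : 1 ≤ k.choose 2 + l.choose 2 := by
    have : 0 < k.choose 2 := Nat.choose_pos (by omega)
    omega
  have hmn : k.choose 2 + l.choose 2 ≤ n.choose 2 := by
    have e1 := Nat.choose_le_choose 2 (show k + 1 ≤ n by omega)
    have e2 : (k + 1).choose 2 = k.choose 2 + k := by
      rw [Nat.choose_succ_succ' k 1, Nat.choose_one_right]; ring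
    omega
  apply le_antisymm
  · have h1 := upper_kl n 0 k l (by omega)
    rw [hM0] at h1
    simpa using h1
  · have h3 := lower_of (k.choose 2 + l.choose 2) n hm hmn
      (twelve_sqrt _ _ (by
        rw [Nat.cast_add, Nat.cast_choose_two ℝ k]
        have e1 : (k : ℝ) ^ 2 - 1 + 2 * ((l.choose 2 : ℕ) : ℝ) ≤ 2 * n := by linarith
        have e2 : 0 ≤ (k : ℝ) ^ 2 - 1 + 2 * ((l.choose 2 : ℕ) : ℝ) := by nlinarith
        have e3 := pow_le_pow_left₀ e2 e1 2
        have e4 : 288 * ((k : ℝ) * (k - 1)) ≤ ((k : ℝ) ^ 2 - 1) ^ 2 := by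
          have e5 : ((k : ℝ) ^ 2 - 1) ^ 2 = (k - 1) * ((k - 1) * (k + 1) ^ 2) := by ring
          rw [e5]
          have e6 : 288 * (k : ℝ) ≤ (k - 1) * (k + 1) ^ 2 := by nlinarith
          nlinarith
        have e7 : (323 : ℝ) ≤ (k : ℝ) ^ 2 - 1 := by nlinarith
        nlinarith))
      ((k : ℝ) ^ 2 - 1 + 2 * ((l.choose 2 : ℕ) : ℝ)) (by
        intro b hb
        rcases Nat.eq_zero_or_pos b with h0 | h0
        · subst h0
          rw [hM0, Nat.sub_zero]
          have e1 := four_E_ge ((k.choose 2 + l.choose 2 : ℕ) : ℝ) ((k : ℝ) - 1) (by linarith) (by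
            rw [Nat.cast_add, Nat.cast_choose_two ℝ k]
            nlinarith)
          have e3 : 2 * ((k.choose 2 + l.choose 2 : ℕ) : ℝ) = (k : ℝ) ^ 2 - k
              + 2 * ((l.choose 2 : ℕ) : ℝ) := by
            rw [Nat.cast_add, Nat.cast_choose_two ℝ k]; ring
          simp only [Nat.cast_zero, zero_mul, mul_zero, zero_add]
          linarith
        · have e1 := four_E_ge0 ((k.choose 2 + l.choose 2 - hubEdges n b : ℕ) : ℝ) (by positivity)
          have e2 : (0 : ℝ) ≤ ((k.choose 2 + l.choose 2 - hubEdges n b : ℕ) : ℝ) := by positivity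
          have e3 : n ≤ 2 * (b * ((n + 1) / 2)) := by
            have : 1 * ((n + 1) / 2) ≤ b * ((n + 1) / 2) := Nat.mul_le_mul_right _ h0
            omega
          have e4 : (n : ℝ) ≤ 2 * ((b : ℝ) * (((n + 1) / 2 : ℕ) : ℝ)) := by exact_mod_cast e3
          linarith)
    rw [two_choose] at h3
    have h4 : ((k ^ 2 + l ^ 2 : ℕ) : ℝ)
        ≤ ((4 * bis (k.choose 2 + l.choose 2) n + l + 1 : ℕ) : ℝ) := by
      push_cast
      push_cast at h3
      linarith
    have h5 : k ^ 2 + l ^ 2 ≤ 4 * bis (k.choose 2 + l.choose 2) n + l + 1 := by exact_mod_cast h4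
    exact round_step k l _ hl h5

/-- Complete split graphs minus a few edges. -/
lemma exact_split (n a δ m : ℕ) (ha1 : 1 ≤ a) (hn : 144 * a ≤ n)
    (hcond : 2 * (a - 1) * (a + 1) ^ 2 + 2 * (a + 1 + δ) * (a + 2 + δ) ≤ n)
    (hm : m + δ = hubEdges n a) : bis m n = a * ((n + 1) / 2) := by
  have ha : a ≤ n := by omega
  obtain ⟨a', rfl⟩ : ∃ a', a = a' + 1 := ⟨a - 1, by omega⟩
  rw [Nat.add_sub_cancel] at hcond
  have hδ0 : (0 : ℝ) ≤ δ := Nat.cast_nonneg δ
  have ha'0 : (0 : ℝ) ≤ a' := Nat.cast_nonneg a'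
  have hcondR : 2 * (a' : ℝ) * (a' + 1 + 1) ^ 2 + 2 * (a' + 1 + 1 + δ) * (a' + 1 + 2 + δ) ≤ n := by
    exact_mod_cast hcond
  have hnR : 144 * ((a' : ℝ) + 1) ≤ n := by exact_mod_cast hn
  have hmR : (m : ℝ) + δ = ((a' : ℝ) + 1) * n - ((a' : ℝ) + 1) * (a' + 1 + 1) / 2 := by
    have := hub_real n (a' + 1) ha
    rw [← hm] at this
    push_cast at this
    exact this
  have hmpos : 1 ≤ m := by
    have : (1 : ℝ) ≤ m := by nlinarith
    exact_mod_cast this
  apply le_antisymm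
  · have h1 := bis_hub_le m n (a' + 1) ha (by omega)
    exact_mod_cast h1
  · have hmn : m ≤ n.choose 2 := by
      have := hub_le_choose n (a' + 1) ha 0 (by omega)
      simp at this
      omega
    have h3 := lower_of m n hmpos hmn (twelve_sqrt _ _ (by nlinarith))
      (4 * (((a' : ℝ) + 1) * (((n + 1) / 2 : ℕ) : ℝ))) (by
        intro b hb
        set c : ℝ := (((n + 1) / 2 : ℕ) : ℝ) with hc
        have hc0 : 0 ≤ c := by rw [hc]; positivity
        have hcn : 2 * c ≤ n + 1 := by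
          have : 2 * ((n + 1) / 2) ≤ n + 1 := by omega
          rw [hc]
          exact_mod_cast this
        set r : ℝ := ((m - hubEdges n b : ℕ) : ℝ) with hr
        have hr0 : 0 ≤ r := by rw [hr]; positivity
        by_cases hba : a' + 1 ≤ b
        · have hbR : (a' : ℝ) + 1 ≤ b := by exact_mod_cast hba
          have h4 := four_E_ge0 r hr0
          have h5 : ((a' : ℝ) + 1) * c ≤ b * c := mul_le_mul_of_nonneg_right hbR hc0
          linarith
        · push Not at hba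
          obtain ⟨i, hi⟩ : ∃ i, a' + 1 = b + i := ⟨a' + 1 - b, by omega⟩
          have hiR : (a' : ℝ) + 1 = b + i := by exact_mod_cast hi
          have hi1 : (1 : ℝ) ≤ i := by
            have : 1 ≤ i := by omega
            exact_mod_cast this
          have hb0 : (0 : ℝ) ≤ b := Nat.cast_nonneg b
          have hbR : (b : ℝ) = a' + 1 - i := by linarith
          have hrge : (m : ℝ) - (hubEdges n b : ℕ) ≤ r := sub_ge _ _
          rw [hub_real n b hb, hbR] at hrge
          have hia : (i : ℝ) ≤ a' + 1 := by linarith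
          have hkey : ((i : ℝ) * (2 * (a' + 1) - i + 3) + 2 * δ) ^ 2
              + 2 * ((i : ℝ) * (2 * (a' + 1) - i + 3) + 2 * δ) ≤ 2 * i * n := by
            have e1 : (i : ℝ) * (2 * (a' + 1) - i + 3) + 2 * δ
                ≤ i * (2 * (a' + 1 + 1)) + 2 * δ := by nlinarith
            have e2 : 0 ≤ (i : ℝ) * (2 * (a' + 1) - i + 3) + 2 * δ := by
              have : 0 ≤ (i : ℝ) * (2 * (a' + 1) - i + 3) := mul_nonneg (by linarith) (by linarith)
              linarith
            have e3 := pow_le_pow_left₀ e2 e1 2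
            have e4 : (i * (2 * ((a' : ℝ) + 1 + 1)) + 2 * δ) ^ 2
                + 2 * (i * (2 * ((a' : ℝ) + 1 + 1)) + 2 * δ)
                ≤ i * (2 * (2 * (a' : ℝ) * (a' + 1 + 1) ^ 2
                  + 2 * (a' + 1 + 1 + δ) * (a' + 1 + 2 + δ))) := by
              have f1 : (i : ℝ) * i * (a' + 1 + 1) ^ 2 ≤ i * (a' + 1) * (a' + 1 + 1) ^ 2 := by
                apply mul_le_mul_of_nonneg_right _ (by positivity)
                exact mul_le_mul_of_nonneg_left hia (by linarith)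
              have f2 : (δ : ℝ) ^ 2 ≤ i * δ ^ 2 := by nlinarith [sq_nonneg (δ : ℝ)]
              have f3 : (δ : ℝ) ≤ i * δ := by nlinarith
              nlinarith
            have e5 : (i : ℝ) * (2 * (2 * (a' : ℝ) * (a' + 1 + 1) ^ 2
                  + 2 * (a' + 1 + 1 + δ) * (a' + 1 + 2 + δ))) ≤ i * (2 * n) :=
              mul_le_mul_of_nonneg_left (by linarith) (by linarith)
            linarith
          have hE := four_E_ge r ((i : ℝ) * (2 * (a' + 1) - i + 3) + 2 * δ) (by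
            have : 0 ≤ (i : ℝ) * (2 * (a' + 1) - i + 3) := mul_nonneg (by linarith) (by linarith)
            linarith) (by nlinarith)
          have h7 : (i : ℝ) * (2 * c) ≤ i * (n + 1) :=
            mul_le_mul_of_nonneg_left hcn (by linarith)
          rw [hbR]
          nlinarith)
    have h4 : ((4 * ((a' + 1) * ((n + 1) / 2)) : ℕ) : ℝ) ≤ ((4 * bis m n : ℕ) : ℝ) := by
      push_cast
      push_cast at h3
      linarith
    have h5 : 4 * ((a' + 1) * ((n + 1) / 2)) ≤ 4 * bis m n := by exact_mod_cast h4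
    omega

end Pool.Agent.Lib.MP_279640_coF
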