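import Mathlib
import Pool.Agent.Lib.MP_279640_coF.LowerOne
import Pool.Agent.Lib.MP_279640_co.Clique

set_option autoImplicit false
set_option linter.unusedSectionVars false
open scoped Classical
open Finset

namespace Pool.Agent.Lib.MP_279640_coF

open Pool.Agent.Lib.MP_279640_co

/-- A clique on the first `N` of `N + 1` vertices plus `d` more edges. -/
lemma exists_clq_plus (N d : ℕ) (hd : d ≤ N) :
    ∃ G : SimpleGraph (Fin (N + 1)), G.edgeSet.ncard = N.choose 2 + d ∧
      clq (N + 1) N ≤ G := by
  have h1 : (clq (N + 1) N).edgeFinset.card = N.choose 2 := by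
    rw [← clq_edges (N + 1) N (by omega), Set.ncard_eq_toFinset_card']; rfl
  have h2 : (⊤ : SimpleGraph (Fin (N + 1))).edgeFinset.card = N.choose 2 + N := by
    rw [SimpleGraph.card_edgeFinset_top_eq_card_choose_two, Fintype.card_fin,
      Nat.choose_succ_succ' N 1, Nat.choose_one_right]; ring
  have h3 : (clq (N + 1) N).edgeFinset ⊆ (⊤ : SimpleGraph (Fin (N + 1))).edgeFinset := by
    intro e he
    induction e using Sym2.ind with
    | _ a b =>
      rw [SimpleGraph.mem_edgeFinset, SimpleGraph.mem_edgeSet] at he ⊢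
      exact he.1
  obtain ⟨T, hT1, hT2, hTc⟩ := Finset.exists_subsuperset_card_eq h3
    (n := N.choose 2 + d) (by omega) (by omega)
  refine ⟨SimpleGraph.fromEdgeSet (T : Set (Sym2 (Fin (N + 1)))), ?_, ?_⟩
  · rw [SimpleGraph.edgeSet_fromEdgeSet]
    have : (T : Set (Sym2 (Fin (N + 1)))) \ Sym2.diagSet = T := by
      ext x
      simp only [Set.mem_sdiff, Finset.mem_coe, and_iff_left_iff_imp]
      intro hx
      have := hT2 hx
      rw [SimpleGraph.mem_edgeFinset] at this
      exact SimpleGraph.not_isDiag_of_mem_edgeSet _ this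
    rw [this, Set.ncard_coe_finset, hTc]
  · intro a b hab
    rw [SimpleGraph.fromEdgeSet_adj]
    refine ⟨?_, hab.1⟩
    apply Finset.mem_coe.mpr
    apply hT1
    rw [SimpleGraph.mem_edgeFinset, SimpleGraph.mem_edgeSet]
    exact hab

/-- The arithmetic of the upper bound. -/
lemma arith_one (N d i j : ℕ) (hij : i + j = N) :
    i * j + min d j ≤ N ^ 2 / 4 + min d ((N + 1) / 2) := by
  by_cases hj : j ≤ (N + 1) / 2
  · have h1 : i * j ≤ N ^ 2 / 4 := by
      rw [Nat.le_div_iff_mul_le (by norm_num), ← hij]
      zify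
      nlinarith [sq_nonneg ((i : ℤ) - j)]
    have h2 : min d j ≤ min d ((N + 1) / 2) := min_le_min_left d hj
    omega
  · push Not at hj
    obtain ⟨δ, hδ, hδ1⟩ : ∃ δ, j = (N + 1) / 2 + δ ∧ 1 ≤ δ := ⟨j - (N + 1) / 2, by omega, by omega⟩
    have h1 : i * j + δ ≤ N ^ 2 / 4 := by
      rw [Nat.le_div_iff_mul_le (by norm_num)]
      rcases Nat.even_or_odd' N with ⟨k, rfl | rfl⟩
      · have e1 : (2 * k + 1) / 2 = k := by omega
        rw [e1] at hδ
        have e2 : k = i + δ := by omega
        subst hδ
        rw [e2]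
        nlinarith
      · have e1 : (2 * k + 1 + 1) / 2 = k + 1 := by omega
        rw [e1] at hδ
        have e2 : k = i + δ := by omega
        subst hδ
        rw [e2]
        nlinarith
    have h2 : min d j ≤ min d ((N + 1) / 2) + δ := by omega
    omega

lemma upper_one (N d : ℕ) (hd : d ≤ N) :
    bis (N.choose 2 + d) (N + 1) ≤ N ^ 2 / 4 + min d ((N + 1) / 2) := by
  obtain ⟨G, hG, hK⟩ := exists_clq_plus N d hd
  refine (bis_le G hG).trans (maxBis_le G _ ?_)
  intro S _ _
  set K : Finset (Fin (N + 1)) := Finset.univ.filter (fun u => u.val < N) with hKdef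
  have hKc : K.card = N := card_lt (N + 1) N (by omega)
  have hlast : ∀ u : Fin (N + 1), u ∉ K → u = Fin.last N := by
    intro u hu
    simp only [hKdef, Finset.mem_filter, Finset.mem_univ, true_and, not_lt] at hu
    exact Fin.ext (by have := u.2; simp only [Fin.val_last]; omega)
  have hsplit : ∀ T : Finset (Fin (N + 1)), T ⊆ insert (Fin.last N) (T ∩ K) := by
    intro T u hu
    by_cases h : u ∈ K
    · exact Finset.mem_insert_of_mem (Finset.mem_inter.mpr ⟨hu, h⟩)
    · rw [hlast u h]; exact Finset.mem_insert_self _ _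
  have hsum : (S ∩ K).card + (Sᶜ ∩ K).card = N := by
    have e0 : (S ∩ K).card + (Sᶜ ∩ K).card = K.card := by
      rw [← Finset.card_union_of_disjoint]
      · congr 1
        ext v; simp only [Finset.mem_union, Finset.mem_inter, Finset.mem_compl]; tauto
      · rw [Finset.disjoint_left]
        intro v hv hv'
        simp only [Finset.mem_inter, Finset.mem_compl] at hv hv'
        exact hv'.1 hv.1
    rw [e0, hKc]
  set P := (S ×ˢ Sᶜ).filter (fun p => G.Adj p.1 p.2) with hP
  set Q := (S ×ˢ Sᶜ).filter (fun p => G.Adj p.1 p.2 ∧ ¬ (p.1 ∈ K ∧ p.2 ∈ K)) with hQ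
  have hPQ : P ⊆ ((S ∩ K) ×ˢ (Sᶜ ∩ K)) ∪ Q := by
    intro p hp
    rw [hP, Finset.mem_filter, Finset.mem_product] at hp
    rw [Finset.mem_union]
    by_cases h : p.1 ∈ K ∧ p.2 ∈ K
    · left
      rw [Finset.mem_product, Finset.mem_inter, Finset.mem_inter]
      exact ⟨⟨hp.1.1, h.1⟩, ⟨hp.1.2, h.2⟩⟩
    · right
      rw [hQ, Finset.mem_filter, Finset.mem_product]
      exact ⟨hp.1, hp.2, h⟩
  have hPc : P.card ≤ (S ∩ K).card * (Sᶜ ∩ K).card + Q.card := by
    refine (Finset.card_le_card hPQ).trans ((Finset.card_union_le _ _).trans ?_)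
    rw [Finset.card_product]
  -- the remaining pairs are at most `d`
  have hQd : Q.card ≤ d := by
    have h1 : (clq (N + 1) N).edgeFinset ⊆ G.edgeFinset := by
      intro e he
      induction e using Sym2.ind with
      | _ a b =>
        rw [SimpleGraph.mem_edgeFinset, SimpleGraph.mem_edgeSet] at he ⊢
        exact hK he
    have h2 : G.edgeFinset.card = N.choose 2 + d := by
      rw [← hG, Set.ncard_eq_toFinset_card']; rfl
    have h3 : (clq (N + 1) N).edgeFinset.card = N.choose 2 := by
      rw [← clq_edges (N + 1) N (by omega), Set.ncard_eq_toFinset_card']; rfl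
    have h4 : (G.edgeFinset \ (clq (N + 1) N).edgeFinset).card = d := by
      have := Finset.card_sdiff_add_card_eq_card h1
      omega
    rw [← h4]
    apply Finset.card_le_card_of_injOn (fun p : Fin (N + 1) × Fin (N + 1) => s(p.1, p.2))
    · intro p hp
      rw [Finset.mem_coe, hQ, Finset.mem_filter] at hp
      simp only [Finset.coe_sdiff, Set.mem_sdiff, Finset.mem_coe, SimpleGraph.mem_edgeFinset,
        SimpleGraph.mem_edgeSet]
      refine ⟨hp.2.1, fun h => hp.2.2 ?_⟩
      have h5 : p.1.val < N ∧ p.2.val < N := h.2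
      simp only [hKdef, Finset.mem_filter, Finset.mem_univ, true_and]
      exact h5
    · intro p hp q hq hpq
      rw [Finset.mem_coe, hQ, Finset.mem_filter, Finset.mem_product, Finset.mem_compl] at hp hq
      have hpq' : s(p.1, p.2) = s(q.1, q.2) := hpq
      rw [Sym2.eq_iff] at hpq'
      rcases hpq' with ⟨h2, h3⟩ | ⟨h2, h3⟩
      · exact Prod.ext h2 h3
      · exfalso
        rw [h2] at hp
        exact hq.1.2 hp.1.1
  have hcut : cutSize G S = P.card := cutSize_card G S
  rw [hcut]
  by_cases hv : Fin.last N ∈ S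
  · have hQj : Q.card ≤ (Sᶜ ∩ K).card := by
      apply Finset.card_le_card_of_injOn (fun p : Fin (N + 1) × Fin (N + 1) => p.2)
      · intro p hp
        rw [Finset.mem_coe, hQ, Finset.mem_filter, Finset.mem_product] at hp
        rw [Finset.mem_coe]
        refine Finset.mem_inter.mpr ⟨hp.1.2, ?_⟩
        by_contra h
        have h7 : p.2 ∉ K := h
        have := hp.1.2
        rw [hlast _ h7, Finset.mem_compl] at this
        exact this hv
      · intro p hp q hq hpq
        rw [Finset.mem_coe, hQ, Finset.mem_filter, Finset.mem_product] at hp hq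
        have h2 : ∀ p : Fin (N + 1) × Fin (N + 1), p.2 ∈ Sᶜ → ¬ (p.1 ∈ K ∧ p.2 ∈ K) →
            p.1 = Fin.last N := by
          intro p hp1 hp2
          apply hlast
          intro h3
          apply hp2
          refine ⟨h3, ?_⟩
          by_contra h
          rw [hlast _ h, Finset.mem_compl] at hp1
          exact hp1 hv
        exact Prod.ext ((h2 p hp.1.2 hp.2.2).trans (h2 q hq.1.2 hq.2.2).symm) hpq
    have := arith_one N d (S ∩ K).card (Sᶜ ∩ K).card hsum
    omega
  · have hQj : Q.card ≤ (S ∩ K).card := by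
      apply Finset.card_le_card_of_injOn (fun p : Fin (N + 1) × Fin (N + 1) => p.1)
      · intro p hp
        rw [Finset.mem_coe, hQ, Finset.mem_filter, Finset.mem_product] at hp
        rw [Finset.mem_coe]
        refine Finset.mem_inter.mpr ⟨hp.1.1, ?_⟩
        by_contra h
        have h7 : p.1 ∉ K := h
        have := hp.1.1
        rw [hlast _ h7] at this
        exact hv this
      · intro p hp q hq hpq
        rw [Finset.mem_coe, hQ, Finset.mem_filter, Finset.mem_product] at hp hq
        have h2 : ∀ p : Fin (N + 1) × Fin (N + 1), p.1 ∈ S → ¬ (p.1 ∈ K ∧ p.2 ∈ K) →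
            p.2 = Fin.last N := by
          intro p hp1 hp2
          apply hlast
          intro h3
          apply hp2
          refine ⟨?_, h3⟩
          by_contra h
          rw [hlast _ h] at hp1
          exact hv hp1
        exact Prod.ext hpq ((h2 p hp.1.1 hp.2.2).trans (h2 q hq.1.1 hq.2.2).symm)
    have := arith_one N d (Sᶜ ∩ K).card (S ∩ K).card (by omega)
    rw [Nat.mul_comm] at this
    omega

end Pool.Agent.Lib.MP_279640_coF
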