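import Mathlib
import Pool.Agent.Lib.MP_279640_coF.EG
import Pool.Agent.Lib.MP_279640_coF.UpperOne
import Pool.Agent.Lib.MP_279640_coF.Avg
import Pool.Agent.Lib.MP_279640_coF.Sparse2

set_option autoImplicit false
set_option linter.unusedSectionVars false
open scoped Classical
open Finset

namespace Pool.Agent.Lib.MP_279640_coF

open Pool.Agent.Lib.MP_279640_co

lemma few_one (N d : ℕ) (hd : d ≤ N) :
    bis (N.choose 2 + d) (N + 1) = N ^ 2 / 4 + min d ((N + 1) / 2) := by
  apply le_antisymm (upper_one N d hd)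
  have h1 : N.choose 2 + d ≤ (N + 1).choose 2 := by
    have h2 : (N + 1).choose 2 = N.choose 2 + N := by
      rw [Nat.choose_succ_succ' N 1, Nat.choose_one_right]; ring
    omega
  obtain ⟨G, hG, hb⟩ := exists_bis (N.choose 2 + d) (N + 1) h1
  rw [hb]
  exact lower_one N d hd G hG

lemma few_two (N a : ℕ) (ha : a ≤ 4) : bis (N.choose 2) (N + a) = N ^ 2 / 4 := by
  apply le_antisymm
  · have h1 := bis_clique_le (N + a) N (by omega)
    rw [Nat.le_div_iff_mul_le (by norm_num)]
    have h2 : (bis (N.choose 2) (N + a) : ℝ) * 4 ≤ (N : ℝ) ^ 2 := by linarith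
    exact_mod_cast h2
  · obtain ⟨G, hG, hb⟩ := exists_bis (N.choose 2) (N + a) (Nat.choose_le_choose 2 (by omega))
    rw [hb]
    exact lower_two N a ha G hG

lemma few_three (m : ℕ) (hm : 1 ≤ m) : ∃ N d : ℕ, 1 ≤ d ∧ d ≤ N ∧ m = N.choose 2 + d ∧
    ∀ n : ℕ, m ≤ n.choose 2 → N + 1 ≤ n := by
  obtain ⟨N, _, h2, h3⟩ := exists_clq (m - 1)
  refine ⟨N, m - N.choose 2, by omega, by omega, by omega, fun n hn => ?_⟩
  by_contra hcon
  have := Nat.choose_le_choose 2 (show n ≤ N by omega)
  omega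

/-- The matching bound in the dense range. -/
lemma dense_lower (p m n : ℕ) (h1 : (2 * p).choose 2 ≤ m) (h2 : m ≤ n.choose 2)
    (h3 : 2 * n ≤ 5 * p + 2) : m + p ≤ 2 * bis m n := by
  obtain ⟨G, hG, hb⟩ := exists_bis m n h2
  have hsum := sum_A_eq G
  rw [hG] at hsum
  have h1R : ((2 * p : ℕ) : ℝ) * (((2 * p : ℕ) : ℝ) - 1) / 2 ≤ m := by
    rw [← Nat.cast_choose_two]
    exact_mod_cast h1
  push_cast at h1R
  obtain ⟨ν, g, h, hν, hm⟩ := match_of_edges (G := G) (p := p)
    (by rw [Fintype.card_fin]; exact h3) (by rw [hsum]; linarith)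
  have h4 := two_match_le (sur_of_bal (bal_maxBis G)) hm
  rw [hG, ← hb] at h4
  have h5 : (p : ℝ) ≤ ν := by exact_mod_cast hν
  have h6 : ((m + p : ℕ) : ℝ) ≤ ((2 * bis m n : ℕ) : ℝ) := by
    push_cast
    linarith
  exact_mod_cast h6

lemma choose_even (p : ℕ) : (2 * p).choose 2 + p = 2 * (p * p) := by
  have h : (((2 * p).choose 2 + p : ℕ) : ℝ) = ((2 * (p * p) : ℕ) : ℝ) := by
    rw [Nat.cast_add, Nat.cast_choose_two]
    push_cast
    ring
  exact_mod_cast h

lemma choose_odd (p : ℕ) : (2 * p + 1).choose 2 = 2 * (p * p) + p := by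
  have h : (((2 * p + 1).choose 2 : ℕ) : ℝ) = ((2 * (p * p) + p : ℕ) : ℝ) := by
    rw [Nat.cast_choose_two]
    push_cast
    ring
  exact_mod_cast h

lemma dense_exact (N l n : ℕ) (hl : l ≤ 3) (h1 : N + 2 * l ≤ n) (h2 : 2 * n ≤ 5 * (N / 2) + 2) :
    bis (N.choose 2 + l.choose 2) n = (N ^ 2 + l ^ 2) / 4 := by
  have hl3 := lchoose_le l hl
  apply le_antisymm
  · have h3 := upper_kl n 0 N l (by omega)
    have hM0 : hubEdges n 0 = 0 := by simp [hubEdges]
    rw [hM0] at h3
    simpa using h3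
  · have hmn : N.choose 2 + l.choose 2 ≤ n.choose 2 := by
      have e1 := hub_le_choose n 0 (by omega) (N + l) (by omega)
      have e2 : N.choose 2 + l.choose 2 ≤ (N + l).choose 2 := by
        have : ((N.choose 2 + l.choose 2 : ℕ) : ℝ) ≤ (((N + l).choose 2 : ℕ) : ℝ) := by
          rw [Nat.cast_add, Nat.cast_choose_two, Nat.cast_choose_two, Nat.cast_choose_two]
          push_cast
          have : (0 : ℝ) ≤ (N : ℝ) * l := by positivity
          nlinarith
        exact_mod_cast this
      omega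
    have h3 := dense_lower (N / 2) (N.choose 2 + l.choose 2) n
      (le_trans (Nat.choose_le_choose 2 (by omega)) (Nat.le_add_right _ _)) hmn h2
    rcases Nat.even_or_odd' N with ⟨p, rfl | rfl⟩
    · have e1 : 2 * p / 2 = p := by omega
      rw [e1] at h3
      have e2 := choose_even p
      have e3 : (2 * p) ^ 2 = 4 * (p * p) := by ring
      rw [e3]
      interval_cases l
      · simp only [Nat.choose_zero_succ] at h3 ⊢
        omega
      · simp only [show Nat.choose 1 2 = 0 from rfl] at h3 ⊢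
        omega
      · simp only [show Nat.choose 2 2 = 1 from rfl] at h3 ⊢
        omega
      · simp only [show Nat.choose 3 2 = 3 from rfl] at h3 ⊢
        omega
    · have e1 : (2 * p + 1) / 2 = p := by omega
      rw [e1] at h3
      have e2 := choose_odd p
      have e3 : (2 * p + 1) ^ 2 = 4 * (p * p) + 4 * p + 1 := by ring
      rw [e3]
      interval_cases l
      · simp only [Nat.choose_zero_succ] at h3 ⊢
        omega
      · simp only [show Nat.choose 1 2 = 0 from rfl] at h3 ⊢
        omega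
      · simp only [show Nat.choose 2 2 = 1 from rfl] at h3 ⊢
        omega
      · simp only [show Nat.choose 3 2 = 3 from rfl] at h3 ⊢
        omega

lemma dense_minus (p n : ℕ) (hp : 1 ≤ p) (h1 : 2 * p + 1 ≤ n) (h2 : 2 * n ≤ 5 * p + 2) :
    bis ((2 * p + 1).choose 2 - 1) n = p * (p + 1) := by
  have e2 := choose_odd p
  have e1 := choose_even p
  apply le_antisymm
  · have hE := clq_edges n (2 * p + 1) h1
    obtain ⟨H, hH, hHc⟩ := exists_sub_graph (clq n (2 * p + 1)) ((2 * p + 1).choose 2 - 1)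
      (by rw [hE]; omega)
    refine (bis_le H hHc).trans ((maxBis_mono hH).trans (maxBis_le _ _ ?_))
    intro S _ _
    have h3 := clq_cut n (2 * p + 1) h1 S
    have h4 : 4 * (cutSize (clq n (2 * p + 1)) S : ℝ) ≤ ((4 * (p * (p + 1)) + 1 : ℕ) : ℝ) := by
      push_cast
      push_cast at h3
      nlinarith
    have h5 : 4 * cutSize (clq n (2 * p + 1)) S ≤ 4 * (p * (p + 1)) + 1 := by exact_mod_cast h4
    omega
  · have hmn : (2 * p + 1).choose 2 - 1 ≤ n.choose 2 :=
      le_trans (Nat.sub_le _ _) (Nat.choose_le_choose 2 h1)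
    have h3 := dense_lower p ((2 * p + 1).choose 2 - 1) n (by omega) hmn h2
    have h4 : p * (p + 1) = p * p + p := by ring
    omega

end Pool.Agent.Lib.MP_279640_coF
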