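import Mathlib
import Pool.Agent.Lib.MP_279640_coF.Dense

set_option autoImplicit false
set_option linter.unusedSectionVars false
open scoped Classical
open Finset

namespace Pool.Agent.Lib.MP_279640_coF

open Pool.Agent.Lib.MP_279640_co

variable {V : Type} [Fintype V] {ν : ℕ}

/-- The test vector `1_X - 1_T + signs on disjoint edges`. -/
lemma test_vec {G : SimpleGraph V} {d : ℝ} (hS : Sur G d) {α κ ι : Type} [Fintype α] [Fintype κ]
    [Fintype ι] (x : α → V) (t : κ → V) (g h : ι → V)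
    (hinj : Function.Injective (Sum.elim (Sum.elim x t) (Sum.elim g h)))
    (hadj : ∀ i, G.Adj (g i) (h i)) (hcard : Fintype.card α = Fintype.card κ)
    (hTT : ∀ b c, A G (t b) (t c) = 0) :
    2 * ∑ b, ∑ s, A G (x s) (t b) - ∑ s, ∑ s', A G (x s) (x s') + 2 * Fintype.card ι ≤ d := by
  obtain ⟨ε, hε, hB⟩ := greedy_pairs G g h hadj ((∑ s, e (x s)) - ∑ b, e (t b)) Finset.univ
  have h1 : ((∑ s, e (x s)) - ∑ b, e (t b)) + ∑ i ∈ (Finset.univ : Finset ι),
      ε i • (e (g i) - e (h i))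
      = push (Sum.elim (Sum.elim x t) (Sum.elim g h))
        (Sum.elim (Sum.elim (fun _ => (1 : ℝ)) (fun _ => (-1 : ℝ))) (Sum.elim ε (fun i => -ε i))) := by
    unfold push
    simp only [Fintype.sum_sum_type, Sum.elim_inl, Sum.elim_inr, one_smul, neg_smul,
      Finset.sum_neg_distrib, smul_sub, Finset.sum_sub_distrib]
    abel
  rw [h1] at hB
  have h2 := hS _ (push_PA hinj (c := Sum.elim (Sum.elim (fun _ => (1 : ℝ)) (fun _ => (-1 : ℝ)))
      (Sum.elim ε (fun i => -ε i))) (by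
    rintro ((i | i) | (i | i))
    · right; right; rfl
    · left; rfl
    · rcases hε i with h | h
      · left; exact h
      · right; right; exact h
    · rcases hε i with h | h
      · right; right; simp only [Sum.elim_inr, h]; norm_num
      · left; simp only [Sum.elim_inr, h])) (by
    rw [push_sum]
    simp only [Fintype.sum_sum_type, Sum.elim_inl, Sum.elim_inr, Finset.sum_neg_distrib,
      Finset.sum_const, Finset.card_univ, hcard]
    simp)
  rw [B_diff] at hB
  have h3 : ∑ b : κ, ∑ c : κ, A G (t b) (t c) = 0 :=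
    Finset.sum_eq_zero fun b _ => Finset.sum_eq_zero fun c _ => hTT b c
  rw [h3, Finset.card_univ] at hB
  linarith

/-- A subset of given size with at least the average sum. -/
lemma pick (f : V → ℝ) (a : ℕ) : ∀ (k : ℕ) (W : Finset V), W.card = a + k →
    ∃ T ⊆ W, T.card = a ∧ (a : ℝ) * ∑ v ∈ W, f v ≤ (W.card : ℝ) * ∑ v ∈ T, f v := by
  intro k
  induction k with
  | zero =>
    intro W hW
    exact ⟨W, Finset.Subset.refl _, hW, by rw [hW]; simp⟩
  | succ k ih =>
    intro W hW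
    have hne : W.Nonempty := Finset.card_pos.mp (by omega)
    obtain ⟨v, hv, hmin⟩ := Finset.exists_min_image W f hne
    have hc : (W.erase v).card = a + k := by
      rw [Finset.card_erase_of_mem hv]; omega
    obtain ⟨T, hTW, hT, hsum⟩ := ih (W.erase v) hc
    refine ⟨T, hTW.trans (Finset.erase_subset _ _), hT, ?_⟩
    have h1 : f v + ∑ u ∈ W.erase v, f u = ∑ u ∈ W, f u := Finset.add_sum_erase W f hv
    have h2 : ((W.erase v).card : ℝ) * f v ≤ ∑ u ∈ W.erase v, f u := by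
      calc ((W.erase v).card : ℝ) * f v = ∑ u ∈ W.erase v, f v := by
            rw [Finset.sum_const, nsmul_eq_mul]
        _ ≤ _ := Finset.sum_le_sum fun u hu => hmin u (Finset.mem_of_mem_erase hu)
    rw [hc] at h2 hsum
    rw [hW, ← h1]
    rcases Nat.eq_zero_or_pos (a + k) with h0 | h0
    · have ha : a = 0 := by omega
      have hT0 : T = ∅ := Finset.card_eq_zero.mp (by rw [hT, ha])
      rw [ha, hT0]; simp
    · have hpos : (0 : ℝ) < ((a + k : ℕ) : ℝ) := by exact_mod_cast h0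
      set c : ℝ := ((a + k : ℕ) : ℝ) with hcdef
      have hc' : ((a + (k + 1) : ℕ) : ℝ) = c + 1 := by rw [hcdef]; push_cast; ring
      rw [hc']
      set S := ∑ u ∈ W.erase v, f u with hSdef
      set U := ∑ u ∈ T, f u with hUdef
      have ha0 : (0 : ℝ) ≤ a := Nat.cast_nonneg a
      -- a * S ≤ c * U, c * f v ≤ S
      have e1 : c * ((a : ℝ) * (f v + S)) ≤ c * ((c + 1) * U) := by
        have e2 := mul_le_mul_of_nonneg_left h2 ha0
        have e3 := mul_le_mul_of_nonneg_left hsum (show (0 : ℝ) ≤ c + 1 by linarith)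
        nlinarith
      exact le_of_mul_le_mul_left e1 hpos

/-- The count with the number of edges between the hubs and the independent set. -/
lemma eg_struct {G : SimpleGraph V} {d : ℝ} (hS : Sur G d) {g h : Fin ν → V} (hm : MM G g h)
    (hno : ¬ HasMatch G (ν + 1)) (hor : ∀ i, ¬ P2 G g h (h i)) :
    ∃ a r y : ℕ, a + r = ν ∧ ∃ x : ℝ,
      ∑ u, ∑ v, A G u v ≤ (a : ℝ) ^ 2 - a + 2 * x + 6 * a * r + 4 * (r : ℝ) ^ 2 + 4 * r ∧
      x ≤ (a : ℝ) * (Fintype.card V - a - 2 * r) ∧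
      (a : ℝ) * x ≤ (Fintype.card V - a - 2 * r) * y ∧
      2 * (y : ℝ) ≤ d + (a : ℝ) ^ 2 - a - 2 * r := by
  set H : Finset (Fin ν) := Finset.univ.filter (fun i => P2 G g h (g i)) with hH
  set I : Finset V := Finset.univ.filter (fun v => Ex g h v) with hI
  have hmemI : ∀ v, v ∈ I ↔ Ex g h v := by intro v; simp [hI]
  have hmemH : ∀ i, i ∈ H ↔ P2 G g h (g i) := by intro i; simp [hH]
  have hmemHc : ∀ i, i ∈ Hᶜ ↔ ¬ P2 G g h (g i) := by
    intro i; rw [Finset.mem_compl, hmemH]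
  have hν : (ν : ℝ) = H.card + Hᶜ.card := by
    have : H.card + Hᶜ.card = ν := by
      rw [Finset.card_compl, Fintype.card_fin]
      have := Finset.card_le_univ H
      rw [Fintype.card_fin] at this
      omega
    exact_mod_cast this.symm
  have hcard := card_split hm
  rw [← hI] at hcard
  -- facts
  have f1 : ∀ u ∈ I, ∀ v ∈ I, A G u v = 0 := fun u hu v hv =>
    A_eq_zero fun hadj => ind hm hno ((hmemI u).mp hu) ((hmemI v).mp hv) hadj
  have f2 : ∀ i ∈ H, ∀ v ∈ I, A G (h i) v = 0 := by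
    intro i hi v hv
    apply A_eq_zero
    intro hadj
    obtain ⟨x, y, hxy, hx, hy, h1, h2⟩ := (hmemH i).mp hi
    by_cases hc : x = v
    · exact F2 hm hno hy ((hmemI v).mp hv) (by rw [← hc]; exact hxy.symm) h2 hadj
    · exact F2 hm hno hx ((hmemI v).mp hv) hc h1 hadj
  have two : ∀ i ∈ H, ∀ j ∈ H, ∃ x y, x ≠ y ∧ Ex g h x ∧ Ex g h y ∧ G.Adj (g i) x ∧ G.Adj (g j) y := by
    intro i hi j hj
    obtain ⟨x, y, hxy, hx, hy, h1, h2⟩ := (hmemH i).mp hi
    obtain ⟨x', y', hxy', hx', hy', h1', h2'⟩ := (hmemH j).mp hj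
    by_cases hc : x = x'
    · exact ⟨x, y', by rw [hc]; exact hxy', hx, hy', h1, h2'⟩
    · exact ⟨x, x', hc, hx, hx', h1, h1'⟩
  have f3 : ∀ i ∈ H, ∀ j ∈ H, A G (h i) (h j) = 0 := by
    intro i hi j hj
    by_cases hij : i = j
    · rw [hij]; exact A_self G _
    · apply A_eq_zero
      intro hadj
      obtain ⟨x, y, hxy, hx, hy, h1, h2⟩ := two i hi j hj
      exact F3 hm hno hij hx hy hxy h1 h2 hadj
  have f4 : ∀ k ∈ Hᶜ, ∑ i ∈ H, (A G (g k) (h i) + A G (h k) (h i)) ≤ (H.card : ℝ) + 1 := by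
    intro k hk
    apply cross_le
    · intro i; exact A_cases G _ _
    · intro i; exact A_cases G _ _
    · rintro i hi j hj hij ⟨e1, e2⟩
      obtain ⟨x, y, hxy, hx, hy, h1, h2⟩ := two i hi j hj
      have hki : k ≠ i := fun hh => (Finset.mem_compl.mp hk) (hh ▸ hi)
      have hkj : k ≠ j := fun hh => (Finset.mem_compl.mp hk) (hh ▸ hj)
      exact F4 hm hno hij hki hkj hx hy hxy h1 h2 (A_eq_one e1).symm (A_eq_one e2).symm
  -- the independent set
  set W : Finset V := H.image h ∪ I with hW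
  have hdisj : Disjoint (H.image h) I := by
    rw [Finset.disjoint_left]
    intro v hv hv'
    obtain ⟨i, _, rfl⟩ := Finset.mem_image.mp hv
    exact ((hmemI _).mp hv').2 i rfl
  have hWI : ∀ F : V → ℝ, ∑ v ∈ W, F v = ∑ j ∈ H, F (h j) + ∑ v ∈ I, F v := by
    intro F
    rw [hW, Finset.sum_union hdisj, Finset.sum_image (fun a _ b _ hab => hm.hh hab)]
  have hWcard : W.card = H.card + I.card := by
    rw [hW, Finset.card_union_of_disjoint hdisj, Finset.card_image_of_injective _ (fun a b => hm.hh)]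
  have hIc : (I.card : ℝ) = Fintype.card V - 2 * (H.card + Hᶜ.card) := by rw [← hν]; linarith
  have hWR : (W.card : ℝ) = Fintype.card V - H.card - 2 * Hᶜ.card := by
    rw [hWcard]; push_cast; rw [hIc]; ring
  have hWW : ∀ u ∈ W, ∀ v ∈ W, A G u v = 0 := by
    intro u hu v hv
    rw [hW, Finset.mem_union] at hu hv
    rcases hu with hu | hu <;> rcases hv with hv | hv
    · obtain ⟨i, hi, rfl⟩ := Finset.mem_image.mp hu
      obtain ⟨j, hj, rfl⟩ := Finset.mem_image.mp hv
      exact f3 i hi j hj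
    · obtain ⟨i, hi, rfl⟩ := Finset.mem_image.mp hu
      exact f2 i hi v hv
    · obtain ⟨j, hj, rfl⟩ := Finset.mem_image.mp hv
      rw [A_comm]; exact f2 j hj u hu
    · exact f1 u hu v hv
  -- the test vector
  obtain ⟨T, hTW, hTc, hTs⟩ := pick (fun v => ∑ i ∈ H, A G (g i) v) H.card I.card W hWcard
  have hmemT : ∀ v ∈ T, (∃ i ∈ H, h i = v) ∨ Ex g h v := by
    intro v hv
    have := hTW hv
    rw [hW, Finset.mem_union, Finset.mem_image, hmemI] at this
    exact this
  have htest := test_vec hS (α := H) (κ := T) (ι := (Hᶜ : Finset (Fin ν)))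
    (fun i => g i.1) (fun v => v.1) (fun i => g i.1) (fun i => h i.1) (by
      rintro ((x | x) | (x | x)) ((y | y) | (y | y)) hxy
      · simp only [Sum.elim_inl] at hxy
        rw [Subtype.ext (hm.gg hxy)]
      · simp only [Sum.elim_inl, Sum.elim_inr] at hxy
        exfalso
        rcases hmemT y.1 y.2 with ⟨i, _, hi⟩ | hex
        · exact hm.gh x.1 i (by rw [hxy, hi])
        · exact hex.1 x.1 hxy
      · simp only [Sum.elim_inl, Sum.elim_inr] at hxy
        exfalso
        have := hm.gg hxy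
        exact (Finset.mem_compl.mp y.2) (this ▸ x.2)
      · simp only [Sum.elim_inl, Sum.elim_inr] at hxy
        exact absurd hxy (hm.gh x.1 y.1)
      · simp only [Sum.elim_inl, Sum.elim_inr] at hxy
        exfalso
        rcases hmemT x.1 x.2 with ⟨i, _, hi⟩ | hex
        · exact hm.gh y.1 i (by rw [← hxy, hi])
        · exact hex.1 y.1 hxy.symm
      · simp only [Sum.elim_inl, Sum.elim_inr] at hxy
        rw [Subtype.ext hxy]
      · simp only [Sum.elim_inl, Sum.elim_inr] at hxy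
        exfalso
        rcases hmemT x.1 x.2 with ⟨i, _, hi⟩ | hex
        · exact hm.gh y.1 i (by rw [← hxy, hi])
        · exact hex.1 y.1 hxy.symm
      · simp only [Sum.elim_inl, Sum.elim_inr] at hxy
        exfalso
        rcases hmemT x.1 x.2 with ⟨i, hiH, hi⟩ | hex
        · have h1 : i = y.1 := hm.hh (by rw [hi, hxy])
          exact (Finset.mem_compl.mp y.2) (h1 ▸ hiH)
        · exact hex.2 y.1 hxy.symm
      · simp only [Sum.elim_inl, Sum.elim_inr] at hxy
        exfalso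
        have := hm.gg hxy
        exact (Finset.mem_compl.mp x.2) (this ▸ y.2)
      · simp only [Sum.elim_inl, Sum.elim_inr] at hxy
        exfalso
        rcases hmemT y.1 y.2 with ⟨i, _, hi⟩ | hex
        · exact hm.gh x.1 i (by rw [hxy, hi])
        · exact hex.1 x.1 hxy
      · simp only [Sum.elim_inl, Sum.elim_inr] at hxy
        rw [Subtype.ext (hm.gg hxy)]
      · simp only [Sum.elim_inl, Sum.elim_inr] at hxy
        exact absurd hxy (hm.gh x.1 y.1)
      · simp only [Sum.elim_inl, Sum.elim_inr] at hxy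
        exact absurd hxy.symm (hm.gh y.1 x.1)
      · simp only [Sum.elim_inl, Sum.elim_inr] at hxy
        exfalso
        rcases hmemT y.1 y.2 with ⟨i, hiH, hi⟩ | hex
        · have h1 : i = x.1 := hm.hh (by rw [hi, ← hxy])
          exact (Finset.mem_compl.mp x.2) (h1 ▸ hiH)
        · exact hex.2 x.1 hxy
      · simp only [Sum.elim_inl, Sum.elim_inr] at hxy
        exact absurd hxy.symm (hm.gh y.1 x.1)
      · simp only [Sum.elim_inr] at hxy
        rw [Subtype.ext (hm.hh hxy)])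
    (fun i => hm.2 i.1) (by rw [Fintype.card_coe, Fintype.card_coe, hTc])
    (fun b c => hWW b.1 (hTW b.2) c.1 (hTW c.2))
  rw [Fintype.card_coe] at htest
  have e1 : ∑ b : T, ∑ s : H, A G (g s.1) b.1 = ∑ v ∈ T, ∑ i ∈ H, A G (g i) v := by
    rw [← Finset.sum_coe_sort T (fun v => ∑ i ∈ H, A G (g i) v)]
    refine Finset.sum_congr rfl fun b _ => ?_
    exact Finset.sum_coe_sort H (fun i => A G (g i) b.1)
  have e2 : ∑ s : H, ∑ s' : H, A G (g s.1) (g s'.1) ≤ (H.card : ℝ) * (H.card - 1) := by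
    calc ∑ s : H, ∑ s' : H, A G (g s.1) (g s'.1) ≤ ∑ s : H, ((H.card : ℝ) - 1) := by
          apply Finset.sum_le_sum
          intro s _
          rw [Finset.sum_coe_sort H (fun i => A G (g s.1) (g i))]
          exact sum_A_card_sub G H g s.2
      _ = _ := by
          rw [Finset.sum_const, nsmul_eq_mul, Finset.card_univ, Fintype.card_coe]
  rw [e1] at htest
  have e3 : 2 * ∑ v ∈ T, ∑ i ∈ H, A G (g i) v
      ≤ d + (H.card : ℝ) ^ 2 - H.card - 2 * Hᶜ.card := by nlinarith
  have e5 : ((∑ v ∈ T, ∑ i ∈ H, (if G.Adj (g i) v then 1 else 0) : ℕ) : ℝ)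
      = ∑ v ∈ T, ∑ i ∈ H, A G (g i) v := by
    unfold A
    push_cast
    rfl
  refine ⟨H.card, Hᶜ.card, ∑ v ∈ T, ∑ i ∈ H, (if G.Adj (g i) v then 1 else 0), ?_,
    ∑ v ∈ W, ∑ i ∈ H, A G (g i) v, ?_, ?_, ?_, ?_⟩
  · rw [Finset.card_compl, Fintype.card_fin]
    have := Finset.card_le_univ H
    rw [Fintype.card_fin] at this
    omega
  · -- the count
    set a : ℝ := (H.card : ℝ) with ha
    set r : ℝ := (Hᶜ.card : ℝ) with hr
    have hD : ∀ u, ∑ v, A G u v = ∑ j ∈ H, A G u (g j) + ∑ j ∈ Hᶜ, A G u (g j)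
        + ∑ j ∈ H, A G u (h j) + ∑ j ∈ Hᶜ, A G u (h j) + ∑ v ∈ I, A G u v := by
      intro u
      rw [sum_split hm (fun v => A G u v), ← Finset.sum_add_sum_compl H (fun j => A G u (g j)),
        ← Finset.sum_add_sum_compl H (fun j => A G u (h j))]
      ring
    have hSS : ∑ u, ∑ v, A G u v = ∑ i ∈ H, (∑ v, A G (g i) v) + ∑ k ∈ Hᶜ, (∑ v, A G (g k) v)
        + ∑ i ∈ H, (∑ v, A G (h i) v) + ∑ k ∈ Hᶜ, (∑ v, A G (h k) v)
        + ∑ u ∈ I, (∑ v, A G u v) := by
      rw [sum_split hm (fun u => ∑ v, A G u v),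
        ← Finset.sum_add_sum_compl H (fun j => ∑ v, A G (g j) v),
        ← Finset.sum_add_sum_compl H (fun j => ∑ v, A G (h j) v)]
      ring
    have hx1 : ∑ v ∈ W, ∑ i ∈ H, A G (g i) v
        = ∑ i ∈ H, (∑ j ∈ H, A G (g i) (h j) + ∑ v ∈ I, A G (g i) v) := by
      rw [Finset.sum_comm]
      exact Finset.sum_congr rfl fun i _ => hWI _
    have hx2 : ∑ v ∈ W, ∑ i ∈ H, A G (g i) v
        = ∑ i ∈ H, ∑ j ∈ H, A G (h i) (g j) + ∑ u ∈ I, ∑ j ∈ H, A G u (g j) := by
      rw [hWI]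
      congr 1
      · exact Finset.sum_congr rfl fun i _ => Finset.sum_congr rfl fun j _ => A_comm G _ _
      · exact Finset.sum_congr rfl fun i _ => Finset.sum_congr rfl fun j _ => A_comm G _ _
    have b1 : ∑ i ∈ H, (∑ v, A G (g i) v) ≤ a * (a - 1 + 2 * r)
        + ∑ i ∈ H, (∑ j ∈ H, A G (g i) (h j) + ∑ v ∈ I, A G (g i) v) := by
      have : a * (a - 1 + 2 * r) = ∑ i ∈ H, (a - 1 + 2 * r) := by
        rw [Finset.sum_const, nsmul_eq_mul]
      rw [this, ← Finset.sum_add_distrib]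
      apply Finset.sum_le_sum
      intro i hi
      rw [hD]
      have e1 := sum_A_card_sub G H g hi
      have e2 := sum_A_card G Hᶜ (g i) g
      have e3 := sum_A_card G Hᶜ (g i) h
      linarith
    have b2 : ∑ k ∈ Hᶜ, (∑ v, A G (g k) v) + ∑ k ∈ Hᶜ, (∑ v, A G (h k) v)
        ≤ r * (2 * a + 2 * (2 * r - 1) + (a + 1) + 2) := by
      rw [← Finset.sum_add_distrib]
      calc ∑ k ∈ Hᶜ, (∑ v, A G (g k) v + ∑ v, A G (h k) v)
          ≤ ∑ k ∈ Hᶜ, (2 * a + 2 * (2 * r - 1) + (a + 1) + 2) := by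
            apply Finset.sum_le_sum
            intro k hk
            rw [hD, hD]
            have e1 := sum_A_card G H (g k) g
            have e2 := sum_A_card G H (h k) g
            have e3 := sum_A_card_sub G Hᶜ g hk
            have e4 := sum_A_card_sub G Hᶜ h hk
            have e5 := sum_A_card G Hᶜ (g k) h
            have e6 := sum_A_card G Hᶜ (h k) g
            have e7 := sum_ex_le ((hmemHc k).mp hk)
            have e8 := sum_ex_le (hor k)
            have e9 := f4 k hk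
            rw [Finset.sum_add_distrib] at e9
            rw [← hI] at e7 e8
            linarith
        _ = _ := by rw [Finset.sum_const, nsmul_eq_mul]
    have b3 : ∑ i ∈ H, (∑ v, A G (h i) v) ≤ ∑ i ∈ H, ∑ j ∈ H, A G (h i) (g j) + r * (a + 1) := by
      have e1 : ∀ i ∈ H, ∑ v, A G (h i) v
          ≤ ∑ j ∈ H, A G (h i) (g j) + ∑ k ∈ Hᶜ, (A G (g k) (h i) + A G (h k) (h i)) := by
        intro i hi
        rw [hD, Finset.sum_add_distrib]
        have e2 : ∑ j ∈ H, A G (h i) (h j) = 0 := Finset.sum_eq_zero fun j hj => f3 i hi j hj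
        have e3 : ∑ v ∈ I, A G (h i) v = 0 := Finset.sum_eq_zero fun v hv => f2 i hi v hv
        have e4 : ∑ j ∈ Hᶜ, A G (h i) (g j) = ∑ j ∈ Hᶜ, A G (g j) (h i) :=
          Finset.sum_congr rfl fun j _ => A_comm G _ _
        have e5 : ∑ j ∈ Hᶜ, A G (h i) (h j) = ∑ j ∈ Hᶜ, A G (h j) (h i) :=
          Finset.sum_congr rfl fun j _ => A_comm G _ _
        linarith
      calc ∑ i ∈ H, (∑ v, A G (h i) v)
          ≤ ∑ i ∈ H, (∑ j ∈ H, A G (h i) (g j)
            + ∑ k ∈ Hᶜ, (A G (g k) (h i) + A G (h k) (h i))) := Finset.sum_le_sum e1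
        _ = ∑ i ∈ H, ∑ j ∈ H, A G (h i) (g j)
            + ∑ k ∈ Hᶜ, ∑ i ∈ H, (A G (g k) (h i) + A G (h k) (h i)) := by
            rw [Finset.sum_add_distrib]
            congr 1
            exact Finset.sum_comm
        _ ≤ ∑ i ∈ H, ∑ j ∈ H, A G (h i) (g j) + ∑ k ∈ Hᶜ, (a + 1) := by
            have := Finset.sum_le_sum f4
            linarith
        _ = _ := by rw [Finset.sum_const, nsmul_eq_mul]
    have b4 : ∑ u ∈ I, (∑ v, A G u v) ≤ ∑ u ∈ I, ∑ j ∈ H, A G u (g j) + 2 * r := by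
      have e1 : ∀ u ∈ I, ∑ v, A G u v
          ≤ ∑ j ∈ H, A G u (g j) + ∑ k ∈ Hᶜ, (A G (g k) u + A G (h k) u) := by
        intro u hu
        rw [hD, Finset.sum_add_distrib]
        have e2 : ∑ j ∈ H, A G u (h j) = 0 := Finset.sum_eq_zero fun j hj => by
          rw [A_comm]; exact f2 j hj u hu
        have e3 : ∑ v ∈ I, A G u v = 0 := Finset.sum_eq_zero fun v hv => f1 u hu v hv
        have e4 : ∑ j ∈ Hᶜ, A G u (g j) = ∑ j ∈ Hᶜ, A G (g j) u :=
          Finset.sum_congr rfl fun j _ => A_comm G _ _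
        have e5 : ∑ j ∈ Hᶜ, A G u (h j) = ∑ j ∈ Hᶜ, A G (h j) u :=
          Finset.sum_congr rfl fun j _ => A_comm G _ _
        linarith
      calc ∑ u ∈ I, (∑ v, A G u v)
          ≤ ∑ u ∈ I, (∑ j ∈ H, A G u (g j)
            + ∑ k ∈ Hᶜ, (A G (g k) u + A G (h k) u)) := Finset.sum_le_sum e1
        _ = ∑ u ∈ I, ∑ j ∈ H, A G u (g j)
            + ∑ k ∈ Hᶜ, (∑ u ∈ I, A G (g k) u + ∑ u ∈ I, A G (h k) u) := by
            rw [Finset.sum_add_distrib]
            congr 1
            rw [Finset.sum_comm]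
            refine Finset.sum_congr rfl fun k _ => ?_
            rw [Finset.sum_add_distrib]
        _ ≤ ∑ u ∈ I, ∑ j ∈ H, A G u (g j) + ∑ k ∈ Hᶜ, (2 : ℝ) := by
            have : ∑ k ∈ Hᶜ, (∑ u ∈ I, A G (g k) u + ∑ u ∈ I, A G (h k) u) ≤ ∑ k ∈ Hᶜ, (2 : ℝ) := by
              apply Finset.sum_le_sum
              intro k hk
              have e7 := sum_ex_le ((hmemHc k).mp hk)
              have e8 := sum_ex_le (hor k)
              rw [← hI] at e7 e8
              linarith
            linarith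
        _ = _ := by rw [Finset.sum_const, nsmul_eq_mul]; ring
    rw [hSS]
    have hx3 := hx1
    nlinarith [b1, b2, b3, b4, hx1, hx2]
  · -- at most all pairs
    rw [← hWR]
    calc ∑ v ∈ W, ∑ i ∈ H, A G (g i) v ≤ ∑ v ∈ W, ∑ i ∈ H, (1 : ℝ) :=
          Finset.sum_le_sum fun v _ => Finset.sum_le_sum fun i _ => A_le_one G _ _
      _ = _ := by simp [mul_comm]
  · rw [e5, ← hWR]; exact hTs
  · rw [e5]; exact e3

lemma wide_arith (a r y p n : ℕ) (d x S : ℝ) (hp : a + r + 1 ≤ p) (h3 : n + 2 ≤ 4 * p)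
    (h2 : 2 * p ≤ n) (hS : 2 * (p : ℝ) * (2 * p - 1) ≤ S)
    (hc : S ≤ (a : ℝ) ^ 2 - a + 2 * x + 6 * a * r + 4 * (r : ℝ) ^ 2 + 4 * r)
    (hx : x ≤ (a : ℝ) * (n - a - 2 * r))
    (ht : (a : ℝ) * x ≤ (n - a - 2 * r) * y)
    (hy : 2 * (y : ℝ) ≤ d + (a : ℝ) ^ 2 - a - 2 * r) :
    2 * (p : ℝ) ≤ d := by
  obtain ⟨s, rfl⟩ := Nat.exists_eq_add_of_le hp
  have hr0 : (0 : ℝ) ≤ r := Nat.cast_nonneg r
  have hs0 : (0 : ℝ) ≤ s := Nat.cast_nonneg s
  have h3R : (n : ℝ) + 2 ≤ 4 * ((a + r + 1 + s : ℕ) : ℝ) := by exact_mod_cast h3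
  have h2R : 2 * ((a + r + 1 + s : ℕ) : ℝ) ≤ n := by exact_mod_cast h2
  rcases a with _ | _ | b
  · exfalso
    push_cast at *
    have hx0 : x ≤ 0 := by linarith
    nlinarith [mul_nonneg hr0 hs0, mul_nonneg hs0 hs0]
  · exfalso
    push_cast at *
    nlinarith [mul_nonneg hr0 hs0, mul_nonneg hs0 hs0]
  · have hb0 : (0 : ℝ) ≤ b := Nat.cast_nonneg b
    have hkey : (b + 2) * (b + 2) + (b + 2) + 2 * s < 2 * y := by
      have hR : ((b : ℝ) + 2) * (b + 2) + (b + 2) + 2 * s < 2 * y := by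
        push_cast at *
        have hw0 : 0 < (n : ℝ) - (b + 1 + 1) - 2 * r := by linarith
        by_contra hcon
        push Not at hcon
        have e1 := mul_le_mul_of_nonneg_left hcon hw0.le
        have hw1 : (n : ℝ) - (b + 1 + 1) - 2 * r
            ≤ 4 * ((b : ℝ) + 1 + 1 + r + 1 + s) - 2 - (b + 1 + 1) - 2 * r := by linarith
        have hM : 0 ≤ ((b : ℝ) + 2) * (b + 2) + (b + 2) + 2 * s := by positivity
        have e2 := mul_le_mul_of_nonneg_right hw1 hM
        have e3 : 0 < 2 * ((b : ℝ) + 2) ^ 2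
            + s * (4 * (b : ℝ) ^ 2 + 12 * b + 4 + 8 * b * r + 12 * r + 4 * b * s) := by positivity
        have e4 : ((b : ℝ) + 1 + 1) * (2 * ((b : ℝ) + 1 + 1 + r + 1 + s)
              * (2 * ((b : ℝ) + 1 + 1 + r + 1 + s) - 1) - (((b : ℝ) + 1 + 1) ^ 2 - (b + 1 + 1)
              + 6 * (b + 1 + 1) * r + 4 * (r : ℝ) ^ 2 + 4 * r))
            - (4 * ((b : ℝ) + 1 + 1 + r + 1 + s) - 2 - (b + 1 + 1) - 2 * r)
              * (((b : ℝ) + 2) * (b + 2) + (b + 2) + 2 * s)
            = 2 * ((b : ℝ) + 2) ^ 2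
              + s * (4 * (b : ℝ) ^ 2 + 12 * b + 4 + 8 * b * r + 12 * r + 4 * b * s) := by
          ring
        have e5 : ((b : ℝ) + 1 + 1) * (2 * ((b : ℝ) + 1 + 1 + r + 1 + s)
              * (2 * ((b : ℝ) + 1 + 1 + r + 1 + s) - 1) - (((b : ℝ) + 1 + 1) ^ 2 - (b + 1 + 1)
              + 6 * (b + 1 + 1) * r + 4 * (r : ℝ) ^ 2 + 4 * r)) ≤ ((b : ℝ) + 1 + 1) * (2 * x) :=
          mul_le_mul_of_nonneg_left (by linarith) (by linarith)
        linarith
      exact_mod_cast hR
    obtain ⟨c, hc'⟩ := Nat.even_mul_succ_self (b + 2)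
    have h5 : (b + 2) * (b + 2) + (b + 2) + 2 * s + 2 ≤ 2 * y := by
      have : (b + 2) * (b + 2 + 1) = (b + 2) * (b + 2) + (b + 2) := by ring
      omega
    have h6 : ((b : ℝ) + 2) * (b + 2) + (b + 2) + 2 * s + 2 ≤ 2 * y := by exact_mod_cast h5
    push_cast at *
    nlinarith

/-- The bound in the dense range, up to `n = 4 p - 2`. -/
lemma wide_lower (p m n : ℕ) (h1 : (2 * p).choose 2 ≤ m) (h2 : m ≤ n.choose 2)
    (h3 : n + 2 ≤ 4 * p) : m + p ≤ 2 * bis m n := by
  have hp1 : 1 ≤ p := by omega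
  have hn2 : 2 * p ≤ n := by
    by_contra hcon
    push Not at hcon
    have e1 : n.choose 2 ≤ (2 * p - 1).choose 2 := Nat.choose_le_choose 2 (by omega)
    obtain ⟨q, hq⟩ : ∃ q, 2 * p = q + 1 := ⟨2 * p - 1, by omega⟩
    have e2 : (q + 1).choose 2 = q.choose 2 + q := by
      rw [Nat.choose_succ_succ' q 1, Nat.choose_one_right]; ring
    rw [hq] at h1 e1
    simp only [Nat.add_sub_cancel] at e1
    omega
  obtain ⟨G, hG, hb⟩ := exists_bis m n h2
  have hsum := sum_A_eq G
  rw [hG] at hsum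
  have h1R : ((2 * p : ℕ) : ℝ) * (((2 * p : ℕ) : ℝ) - 1) / 2 ≤ m := by
    rw [← Nat.cast_choose_two]
    exact_mod_cast h1
  push_cast at h1R
  have hSur := sur_of_bal (bal_maxBis G)
  obtain ⟨ν, ⟨g0, h0, hinj, hadj⟩, hno⟩ := exists_max_match G
  have hm0 : MM G g0 h0 := ⟨hinj, hadj⟩
  have key : 2 * (p : ℝ) ≤ 4 * (bis m n : ℝ) - 2 * m := by
    by_cases hν : p ≤ ν
    · have h4 := two_match_le hSur hm0
      rw [hG, ← hb] at h4
      have h5 : (p : ℝ) ≤ ν := by exact_mod_cast hν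
      linarith
    · push Not at hν
      obtain ⟨g, h, hm, hor⟩ := orient hm0 hno
      obtain ⟨a, r, y, har, x, hS, hx, ht, hy⟩ := eg_struct hSur hm hno hor
      rw [Fintype.card_fin] at hx ht
      have h6 := wide_arith a r y p n _ x _ (by omega) h3 hn2 (by rw [hsum]; linarith) hS hx ht hy
      rw [hG, ← hb] at h6
      linarith
  have h6 : ((m + p : ℕ) : ℝ) ≤ ((2 * bis m n : ℕ) : ℝ) := by
    push_cast
    linarith
  exact_mod_cast h6

lemma wide_exact (N l n : ℕ) (hl : l ≤ 3) (h1 : N + 2 * l ≤ n) 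
    (h2 : n + 2 ≤ 4 * (N / 2)) :
    bis (N.choose 2 + l.choose 2) n = (N ^ 2 + l ^ 2) / 4 := by
  have hl3 := lchoose_le l hl
  apply le_antisymm
  · have h3 := upper_kl n 0 N l (by omega)
    have hM0 : hubEdges n 0 = 0 := by simp [hubEdges]
    rw [hM0] at h3
    simpa using h3
  · have hmn : N.choose 2 + l.choose 2 ≤ n.choose 2 := by
      have e1 := hub_le_choose n 0 (by omega) (N + l) (by omega)
      have e2 : N.choose 2 + l.choose 2 ≤ (N + l).choose 2 := by
        have : ((N.choose 2 + l.choose 2 : ℕ) : ℝ) ≤ (((N + l).choose 2 : ℕ) : ℝ) := by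
          rw [Nat.cast_add, Nat.cast_choose_two, Nat.cast_choose_two, Nat.cast_choose_two]
          push_cast
          have : (0 : ℝ) ≤ (N : ℝ) * l := by positivity
          nlinarith
        exact_mod_cast this
      omega
    have h3 := wide_lower (N / 2) (N.choose 2 + l.choose 2) n
      (le_trans (Nat.choose_le_choose 2 (by omega)) (Nat.le_add_right _ _)) hmn h2
    rcases Nat.even_or_odd' N with ⟨p, rfl | rfl⟩
    · have e1 : 2 * p / 2 = p := by omega
      rw [e1] at h3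
      have e2 := choose_even p
      have e3 : (2 * p) ^ 2 = 4 * (p * p) := by ring
      rw [e3]
      interval_cases l
      · simp only [Nat.choose_zero_succ] at h3 ⊢
        omega
      · simp only [show Nat.choose 1 2 = 0 from rfl] at h3 ⊢
        omega
      · simp only [show Nat.choose 2 2 = 1 from rfl] at h3 ⊢
        omega
      · simp only [show Nat.choose 3 2 = 3 from rfl] at h3 ⊢
        omega
    · have e1 : (2 * p + 1) / 2 = p := by omega
      rw [e1] at h3
      have e2 := choose_odd p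
      have e3 : (2 * p + 1) ^ 2 = 4 * (p * p) + 4 * p + 1 := by ring
      rw [e3]
      interval_cases l
      · simp only [Nat.choose_zero_succ] at h3 ⊢
        omega
      · simp only [show Nat.choose 1 2 = 0 from rfl] at h3 ⊢
        omega
      · simp only [show Nat.choose 2 2 = 1 from rfl] at h3 ⊢
        omega
      · simp only [show Nat.choose 3 2 = 3 from rfl] at h3 ⊢
        omega

lemma wide_minus (p n : ℕ) (hp : 1 ≤ p) (h1 : 2 * p + 1 ≤ n) 
    (h2 : n + 2 ≤ 4 * p) :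
    bis ((2 * p + 1).choose 2 - 1) n = p * (p + 1) := by
  have e2 := choose_odd p
  have e1 := choose_even p
  apply le_antisymm
  · have hE := clq_edges n (2 * p + 1) h1
    obtain ⟨H, hH, hHc⟩ := exists_sub_graph (clq n (2 * p + 1)) ((2 * p + 1).choose 2 - 1)
      (by rw [hE]; omega)
    refine (bis_le H hHc).trans ((maxBis_mono hH).trans (maxBis_le _ _ ?_))
    intro S _ _
    have h3 := clq_cut n (2 * p + 1) h1 S
    have h4 : 4 * (cutSize (clq n (2 * p + 1)) S : ℝ) ≤ ((4 * (p * (p + 1)) + 1 : ℕ) : ℝ) := by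
      push_cast
      push_cast at h3
      nlinarith
    have h5 : 4 * cutSize (clq n (2 * p + 1)) S ≤ 4 * (p * (p + 1)) + 1 := by exact_mod_cast h4
    omega
  · have hmn : (2 * p + 1).choose 2 - 1 ≤ n.choose 2 :=
      le_trans (Nat.sub_le _ _) (Nat.choose_le_choose 2 h1)
    have h3 := wide_lower p ((2 * p + 1).choose 2 - 1) n (by omega) hmn h2
    have h4 : p * (p + 1) = p * p + p := by ring
    omega

/-- With one vertex joined to all others the bound fails at `n = 6 p - 4`. -/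
lemma wide_sharp (p : ℕ) (hp : 2 ≤ p) : bis ((2 * p).choose 2 + 1) (6 * p - 4) ≤ p ^ 2 := by
  obtain ⟨q, rfl⟩ := Nat.exists_eq_add_of_le hp
  have h := upper_kl (6 * (2 + q) - 4) 1 (2 * q + 1) 0 (by omega)
  have e1 : hubEdges (6 * (2 + q) - 4) 1 + (2 * q + 1).choose 2 + Nat.choose 0 2
      = (2 * (2 + q)).choose 2 + 1 := by
    have e2 := choose_odd q
    have e3 := choose_even (2 + q)
    have e4 : (2 + q) * (2 + q) = q * q + 4 * q + 4 := by ring
    unfold hubEdges
    simp only [Nat.choose_zero_succ, show Nat.choose 1 2 = 0 from rfl]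
    omega
  rw [e1] at h
  refine h.trans ?_
  have e5 : (2 * q + 1) ^ 2 + 0 ^ 2 = 4 * (q * q + q) + 1 := by ring
  have e6 : (2 + q) ^ 2 = q * q + 4 * q + 4 := by ring
  rw [e5, e6]
  omega

end Pool.Agent.Lib.MP_279640_coF
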